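import Pool.Agent.Q32.SK.Stm

/-!
# Project SK: CNT and FNA
-/

set_option autoImplicit false

namespace Q32.SK

open Function

theorem aff_card (p : ℕ) [Fact p.Prime] : Nat.card (Aff p) = p * (p - 1) := by
  classical
  have hp : p.Prime := Fact.out
  have hne : ∀ q : (ZMod p)ˣ × ZMod p, ∃ π : Equiv.Perm (Fin p), ∀ i,
      ZMod.finEquiv p (π i) = (q.1 : ZMod p) * ZMod.finEquiv p i + q.2 := by
    intro q
    refine ⟨((ZMod.finEquiv p).toEquiv.trans ((Units.mulLeft q.1).trans
      (Equiv.addRight q.2))).trans (ZMod.finEquiv p).symm.toEquiv, ?_⟩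
    intro i
    simp
  choose P hP using hne
  have hinj : Injective P := by
    intro q q' h
    have h0 := hP q
    rw [h] at h0
    have h1 : ∀ z : ZMod p, (q'.1 : ZMod p) * z + q'.2 = (q.1 : ZMod p) * z + q.2 := by
      intro z
      have h2 := h0 ((ZMod.finEquiv p).symm z)
      rw [hP q'] at h2
      simpa using h2
    have h2 := h1 0
    have h3 := h1 1
    simp only [mul_zero, zero_add] at h2
    simp only [mul_one] at h3
    rw [h2] at h3
    have h4 := add_right_cancel h3
    exact (Prod.ext (Units.ext h4) h2).symm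
  have e : (ZMod p)ˣ × ZMod p ≃ Aff p := Equiv.ofBijective (fun q => ⟨P q, q.1, q.2, hP q⟩) (by
    constructor
    · intro q q' h
      exact hinj (congrArg Subtype.val h)
    · rintro ⟨π, u, b, h⟩
      refine ⟨(u, b), Subtype.ext ?_⟩
      apply Equiv.ext
      intro i
      have h1 := hP (u, b) i
      have h2 := h i
      exact (ZMod.finEquiv p).injective (h1.trans h2.symm))
  rw [← Nat.card_congr e, Nat.card_prod, Nat.card_eq_fintype_card, Nat.card_eq_fintype_card,
    ZMod.card_units_eq_totient, ZMod.card, Nat.totient_prime hp, mul_comm]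

/-- the type of a tuple satisfying the relation -/
theorem ht_pull {k : ℕ} {Θ : Subgroup (Equiv.Perm (Fin k))} {X Y : Type}
    {r : Str Unit (fun _ => k) X} {s : Str Unit (fun _ => k) Y} (hr : (HT k Θ).K X r)
    (hs : (HT k Θ).K Y s) (a : Fin k → X) (b : Fin k → Y) (ha : r () a) (hb : s () b) :
    r.pull a = s.pull b := by
  obtain ⟨h1, h2, h3⟩ := hr
  obtain ⟨h1', h2', h3'⟩ := hs
  funext u v
  apply propext
  have key : Injective v → ∃ π : Equiv.Perm (Fin k), v = π := fun h =>
    ⟨Equiv.ofBijective v (Finite.injective_iff_bijective.1 h), rfl⟩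
  constructor
  · intro h
    have hv : Injective v := fun i j hij => h1 _ h (congrArg a hij)
    obtain ⟨π, rfl⟩ := key hv
    exact (h3' b π hb).2 ((h3 a π ha).1 h)
  · intro h
    have hv : Injective v := fun i j hij => h1' _ h (congrArg b hij)
    obtain ⟨π, rfl⟩ := key hv
    exact (h3 a π ha).2 ((h3' b π hb).1 h)

theorem cnt : S_CNT := by
  intro p hp W hW
  classical
  have hK : (HT p (Aff p)).K W.M W.r := W.good.cls
  obtain ⟨h1, h2, h3⟩ := hK
  have hinv : ∀ (g : W.G) (a : Fin p → W.M), W.r () (fun i => g • a i) ↔ W.r () a := by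
    intro g a
    have := congrFun (congrFun (W.good.inv g) ()) a
    exact iff_of_eq this
  refine ⟨?_, ?_⟩
  · intro D D' hD hD'
    have key : ∀ D : Finset W.M, D.card = p → ∃ a : Fin p → W.M, W.r () a ∧ Injective a ∧
        ∀ x, x ∈ D ↔ ∃ i, a i = x := by
      intro D hD
      have e : Fin p ≃ D := (Finset.equivFinOfCardEq hD).symm
      have hinj : Injective (fun i => (e i : W.M)) := fun i j hij => e.injective (Subtype.ext hij)
      obtain ⟨π, hπ⟩ := h2 _ hinj
      refine ⟨_, hπ, fun i j hij => π.injective (hinj hij), ?_⟩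
      intro x
      constructor
      · intro hx
        exact ⟨π.symm (e.symm ⟨x, hx⟩), by simp⟩
      · rintro ⟨i, rfl⟩
        exact (e (π i)).2
    obtain ⟨a, ha, hai, haD⟩ := key D hD
    obtain ⟨b, hb, hbi, hbD⟩ := key D' hD'
    obtain ⟨g, hg⟩ := hW a b hai hbi (ht_pull ⟨h1, h2, h3⟩ ⟨h1, h2, h3⟩ a b ha hb)
    refine ⟨g, fun x => ?_⟩
    rw [haD, hbD]
    constructor
    · rintro ⟨i, rfl⟩
      exact ⟨i, (hg i).symm⟩
    · rintro ⟨i, hi⟩
      refine ⟨i, ?_⟩
      rw [← hg i] at hi
      exact MulAction.injective g hi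
  · have hch : ∀ a : Fin p ↪ W.M, ∃ π : Equiv.Perm (Fin p), W.r () (fun i => a (π i)) :=
      fun a => h2 a a.injective
    choose P hP using hch
    have hcos : ∀ (a : Fin p ↪ W.M) (π σ : Equiv.Perm (Fin p)), W.r () (fun i => a (π i)) →
        (W.r () (fun i => a (σ i)) ↔ π⁻¹ * σ ∈ Aff p) := by
      intro a π σ h
      have := h3 (fun i => a (π i)) (π⁻¹ * σ) h
      rw [← this]
      have e : (fun i => a (π ((π⁻¹ * σ) i))) = fun i => a (σ i) := by
        funext i
        simp
      simp only [e]
    have hF : ∀ a b : Fin p ↪ W.M, ((P a : Equiv.Perm (Fin p) ⧸ Aff p) = (P b)) ↔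
        a ∈ MulAction.orbit W.G b := by
      intro a b
      rw [QuotientGroup.eq]
      constructor
      · intro h
        have h4 : W.r () (fun i => a (P b i)) := (hcos a (P a) (P b) (hP a)).2 h
        obtain ⟨g, hg⟩ := hW (fun i => b (P b i)) (fun i => a (P b i))
          (fun i j hij => (P b).injective (b.injective hij))
          (fun i j hij => (P b).injective (a.injective hij))
          (ht_pull ⟨h1, h2, h3⟩ ⟨h1, h2, h3⟩ _ _ (hP b) h4)
        refine ⟨g, ?_⟩
        apply Function.Embedding.ext
        intro i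
        have := hg ((P b).symm i)
        simpa using this
      · rintro ⟨g, rfl⟩
        rw [← hcos (g • b) _ _ (hP (g • b))]
        exact (hinv g (fun i => b (P b i))).2 (hP b)
    let Fq : MulAction.orbitRel.Quotient W.G (Fin p ↪ W.M) → Equiv.Perm (Fin p) ⧸ Aff p :=
      Quotient.lift (fun a => (P a : Equiv.Perm (Fin p) ⧸ Aff p)) (fun a b hab => (hF a b).2 hab)
    have hbij : Bijective Fq := by
      constructor
      · intro x y
        induction x using Quotient.inductionOn with
        | h a =>
          induction y using Quotient.inductionOn with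
          | h b =>
            intro h
            exact Quotient.sound ((hF a b).1 h)
      · intro q
        induction q using QuotientGroup.induction_on with
        | H τ =>
          obtain ⟨a⟩ : Nonempty (Fin p ↪ W.M) := by
            obtain ⟨s, hs⟩ := Infinite.exists_subset_card_eq W.M p
            exact ⟨⟨fun i => ((Finset.equivFinOfCardEq hs).symm i : W.M), fun i j hij =>
              (Finset.equivFinOfCardEq hs).symm.injective (Subtype.ext hij)⟩⟩
          let b : Fin p ↪ W.M := (P a * τ⁻¹ : Equiv.Perm (Fin p)).toEmbedding.trans a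
          refine ⟨Quotient.mk _ b, ?_⟩
          show (P b : Equiv.Perm (Fin p) ⧸ Aff p) = τ
          rw [QuotientGroup.eq, ← hcos b _ _ (hP b)]
          have e : (fun i => b (τ i)) = fun i => a (P a i) := by
            funext i
            show a ((P a * τ⁻¹) (τ i)) = _
            simp
          rw [e]
          exact hP a
    rw [Nat.card_congr (Equiv.ofBijective Fq hbij), ← aff_card p]
    have := Subgroup.card_eq_card_quotient_mul_card_subgroup (Aff p)
    rw [← this, Nat.card_eq_fintype_card, Fintype.card_perm, Fintype.card_fin]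

end Q32.SK
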