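import Mathlib

/-!
# Project SK: structurally sharply k-transitive actions. Definitions.
-/

set_option autoImplicit false

namespace Q32.SK

open Function

/-- structures on `X` with relation symbols `i : I` of arity `ar i` -/
def Str (I : Type) (ar : I → ℕ) (X : Type) : Type := (i : I) → (Fin (ar i) → X) → Prop

section str

variable {I : Type} {ar : I → ℕ} {X Y Z : Type}

/-- the pull back of a structure -/
def Str.pull (r : Str I ar Y) (f : X → Y) : Str I ar X := fun i v => r i (fun l => f (v l))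

theorem Str.pull_pull (r : Str I ar Z) (g : Y → Z) (f : X → Y) :
    (r.pull g).pull f = r.pull (fun x => g (f x)) := rfl

theorem Str.pull_id (r : Str I ar X) : r.pull (fun x => x) = r := rfl

end str

/-- classes of structures which are closed under substructures and are determined by the finite
substructures, with countably many finite members -/
structure Cls (I : Type) (ar : I → ℕ) where
  K : (X : Type) → Str I ar X → Prop
  pull : ∀ (X Y : Type) (f : X → Y) (r : Str I ar Y), Injective f → K Y r → K X (r.pull f)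
  loc : ∀ (X : Type) (r : Str I ar X),
    (∀ s : Set X, s.Finite → K s (r.pull (Subtype.val : s → X))) → K X r
  cnt : ∀ n : ℕ, {r : Str I ar (Fin n) | K (Fin n) r}.Countable

/-- `G` acts on `M` by automorphisms of `r`, only `1` fixes `k` points, and the elements `g ≠ 1`
which preserve a set with `k` points have no fixed points outside it -/
structure Good (k : ℕ) {I : Type} {ar : I → ℕ} (𝒞 : Cls I ar) (G M : Type) [Group G]
    [MulAction G M] (r : Str I ar M) : Prop where
  cls : 𝒞.K M r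
  inv : ∀ g : G, r.pull (fun x => g • x) = r
  shp : ∀ (g : G) (a : Fin k → M), Injective a → (∀ i, g • a i = a i) → g = 1
  fre : ∀ (g : G) (D : Finset M), D.card = k → (∀ x ∈ D, g • x ∈ D) → g ≠ 1 →
    ∀ x, g • x = x → x ∈ D

/-- stages: a countable group acting on a countably infinite structure -/
structure Stg (k : ℕ) {I : Type} {ar : I → ℕ} (𝒞 : Cls I ar) : Type 1 where
  G : Type
  M : Type
  [grp : Group G]
  [act : MulAction G M]
  [cG : Countable G]
  [cM : Countable M]
  [iM : Infinite M]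
  r : Str I ar M
  good : Good k 𝒞 G M r

attribute [instance] Stg.grp Stg.act Stg.cG Stg.cM Stg.iM

/-- extensions of stages -/
structure Ext {k : ℕ} {I : Type} {ar : I → ℕ} {𝒞 : Cls I ar} (A B : Stg k 𝒞) where
  φ : A.G →* B.G
  ι : A.M → B.M
  inj : Injective ι
  eqv : ∀ (g : A.G) (x : A.M), ι (g • x) = φ g • ι x
  str : B.r.pull ι = A.r

section ext

variable {k : ℕ} {I : Type} {ar : I → ℕ} {𝒞 : Cls I ar}

/-- the identity -/
def Ext.idm (A : Stg k 𝒞) : Ext A A where
  φ := MonoidHom.id A.G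
  ι := fun x => x
  inj := fun _ _ h => h
  eqv := fun _ _ => rfl
  str := rfl

/-- composition -/
def Ext.comp {A B C : Stg k 𝒞} (e : Ext A B) (f : Ext B C) : Ext A C where
  φ := f.φ.comp e.φ
  ι := fun x => f.ι (e.ι x)
  inj := fun _ _ h => e.inj (f.inj h)
  eqv := fun g x => by rw [e.eqv, f.eqv]; rfl
  str := by
    have h : C.r.pull (fun x => f.ι (e.ι x)) = (C.r.pull f.ι).pull e.ι := rfl
    rw [h, f.str, e.str]

end ext

/-- composites of a sequence of morphisms -/
def cto {Ob : Type 1} {Hom : Ob → Ob → Type} (idm : ∀ A, Hom A A)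
    (cmp : ∀ {A B C : Ob}, Hom A B → Hom B C → Hom A C) (A : ℕ → Ob)
    (e : ∀ n, Hom (A n) (A (n + 1))) (n : ℕ) : ∀ m : ℕ, Hom (A n) (A (n + m))
  | 0 => idm (A n)
  | m + 1 => cmp (cto idm cmp A e n m) (e (n + m))

/-- `M` together with `J` new free orbits of `G` -/
def Ex (G M J : Type) : Type := M ⊕ (G × J)

/-- the old points -/
def Ex.old {G M : Type} (J : Type) (x : M) : Ex G M J := Sum.inl x

/-- the new points -/
def Ex.new {G : Type} (M : Type) {J : Type} (g : G) (j : J) : Ex G M J := Sum.inr (g, j)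

instance (G M J : Type) [Group G] [MulAction G M] : MulAction G (Ex G M J) where
  smul g w := Sum.map (fun x => g • x) (fun p => (g * p.1, p.2)) w
  one_smul w := by
    rcases w with x | ⟨h, j⟩
    · exact congrArg Sum.inl (one_smul G x)
    · exact congrArg Sum.inr (by simp)
  mul_smul g g' w := by
    rcases w with x | ⟨h, j⟩
    · exact congrArg Sum.inl (mul_smul g g' x)
    · exact congrArg Sum.inr (by simp [mul_assoc])

section ex0

variable {G M J : Type}

theorem Ex.cases (w : Ex G M J) : (∃ x, w = Ex.old J x) ∨ ∃ h j, w = Ex.new M h j := by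
  rcases w with x | ⟨h, j⟩
  · exact Or.inl ⟨x, rfl⟩
  · exact Or.inr ⟨h, j, rfl⟩

theorem Ex.old_inj {x y : M} (h : (Ex.old J x : Ex G M J) = Ex.old J y) : x = y :=
  Sum.inl_injective h

theorem Ex.new_inj {g h : G} {i j : J} (hh : (Ex.new M g i : Ex G M J) = Ex.new M h j) :
    g = h ∧ i = j := by
  have h1 := Sum.inr_injective hh
  exact ⟨congrArg Prod.fst h1, congrArg Prod.snd h1⟩

theorem Ex.old_ne_new {x : M} {h : G} {j : J} (hh : (Ex.old J x : Ex G M J) = Ex.new M h j) :
    False := Sum.inl_ne_inr hh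

end ex0

section ex

variable {G M J : Type} [Group G] [MulAction G M]

@[simp] theorem Ex.smul_old (g : G) (x : M) :
    g • (Ex.old J x : Ex G M J) = Ex.old J (g • x) := rfl

@[simp] theorem Ex.smul_new (g h : G) (j : J) :
    g • (Ex.new M h j : Ex G M J) = Ex.new M (g * h) j := rfl

/-- the points of `C` and the new points of `S` -/
def Zs (S : Subgroup G) (C : Set M) (J : Type) : Set (Ex G M J) :=
  {w | (∃ c ∈ C, w = Ex.old J c) ∨ ∃ s ∈ S, ∃ j, w = Ex.new M s j}

end ex

/-- Admissible data: `D` is a structure on the set `Zs S C J` (its values elsewhere do not matter),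
in the class, invariant under `S`, which agrees with `r` on `C`. -/
structure Adm {I : Type} {ar : I → ℕ} (𝒞 : Cls I ar) {G M J : Type} [Group G]
    [MulAction G M] (r : Str I ar M) (S : Subgroup G) (C : Set M) (D : Str I ar (Ex G M J)) :
    Prop where
  finS : Finite S
  finC : C.Finite
  inv : ∀ s ∈ S, ∀ c ∈ C, s • c ∈ C
  cls : 𝒞.K (Zs S C J) (D.pull (Subtype.val : Zs S C J → Ex G M J))
  Dinv : ∀ s ∈ S, ∀ (i : I) (v : Fin (ar i) → Ex G M J), (∀ l, v l ∈ Zs S C J) →
    (D i (fun l => s • v l) ↔ D i v)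
  Dr : ∀ (i : I) (v : Fin (ar i) → M), (∀ l, v l ∈ C) →
    (D i (fun l => Ex.old J (v l)) ↔ r i v)

/-- EAP: equivariant extension by finitely many free orbits with prescribed structure on
`Zs S C J` -/
def EAP (k : ℕ) {I : Type} {ar : I → ℕ} (𝒞 : Cls I ar) : Prop :=
  ∀ (G M : Type) [Group G] [MulAction G M] [Countable G] [Countable M] [Infinite M]
    (r : Str I ar M), Good k 𝒞 G M r →
    ∀ (J : Type) [Finite J] (S : Subgroup G) (C : Set M) (D : Str I ar (Ex G M J)),
      Adm 𝒞 r S C D →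
      ∃ r' : Str I ar (Ex G M J), 𝒞.K (Ex G M J) r' ∧
        (∀ g : G, r'.pull (fun x => g • x) = r') ∧ r'.pull (Ex.old J) = r ∧
        ∀ (i : I) (v : Fin (ar i) → Ex G M J), (∀ l, v l ∈ Zs S C J) → (r' i v ↔ D i v)

/-- the map which sends the new point `g` to `g • y` -/
def evy {G M : Type} [Group G] [MulAction G M] (y : M) : Ex G M Unit → M :=
  Sum.elim (fun x => x) (fun p => p.1 • y)

/-- Rich: all admissible data with one new orbit are realised in `M` by free orbits which avoid a
given finite set. -/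
def Rich {I : Type} {ar : I → ℕ} (𝒞 : Cls I ar) (G M : Type) [Group G] [MulAction G M]
    (r : Str I ar M) : Prop :=
  ∀ (S : Subgroup G) (C : Set M) (D : Str I ar (Ex G M Unit)), Adm 𝒞 r S C D →
    ∀ F : Set M, F.Finite → ∃ y : M, (∀ g : G, g • y = y → g = 1) ∧ (∀ g : G, g • y ∉ F) ∧
      ∀ (i : I) (v : Fin (ar i) → Ex G M Unit), (∀ l, v l ∈ Zs S C Unit) →
        (D i v ↔ r i (fun l => evy y (v l)))

/-- the tuple `a` is full: all automorphisms of its type are realised by `G` -/
def Full {k : ℕ} {I : Type} {ar : I → ℕ} (G M : Type) [Group G] [MulAction G M] (r : Str I ar M)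
    (a : Fin k → M) : Prop :=
  Injective a ∧ ∀ π : Equiv.Perm (Fin k), r.pull (fun i => a (π i)) = r.pull a →
    ∃ g : G, ∀ i, g • a i = a (π i)

/-- HFull: over `A₀` every type of `k`-tuples in the class can be realised by a full tuple -/
def HFull {k : ℕ} {I : Type} {ar : I → ℕ} {𝒞 : Cls I ar} (A₀ : Stg k 𝒞) : Prop :=
  ∀ (B : Stg k 𝒞), Nonempty (Ext A₀ B) → ∀ r₀ : Str I ar (Fin k), 𝒞.K (Fin k) r₀ →
    ∃ (C : Stg k 𝒞) (_ : Ext B C) (a : Fin k → C.M), Full C.G C.M C.r a ∧ C.r.pull a = r₀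

/-- transitivity on tuples of the same type -/
def Trans {k : ℕ} {I : Type} {ar : I → ℕ} {𝒞 : Cls I ar} (W : Stg k 𝒞) : Prop :=
  ∀ a b : Fin k → W.M, Injective a → Injective b → W.r.pull a = W.r.pull b →
    ∃ g : W.G, ∀ i, g • a i = b i

/-- `y` realises the one point extension `D` of `C` -/
def oval {M : Type} (C : Set M) (y : M) : Option C → M := fun o => o.elim y Subtype.val

/-- the extension property -/
def PtExt {k : ℕ} {I : Type} {ar : I → ℕ} {𝒞 : Cls I ar} (W : Stg k 𝒞) : Prop :=
  ∀ (C : Set W.M), C.Finite → ∀ D : Str I ar (Option C), 𝒞.K (Option C) D →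
    D.pull some = W.r.pull (Subtype.val : C → W.M) →
    ∃ y : W.M, y ∉ C ∧ W.r.pull (oval C y) = D

/-! ### generic permutations -/

/-- The datum of a step: two injective tuples `b`, `a` of the same type, subgroups `S`, `S'` acting
on them in the same way, and no element of the group maps one of the two sets to the other. -/
structure Dat (k : ℕ) {I : Type} {ar : I → ℕ} (G M : Type) [Group G] [MulAction G M]
    (r : Str I ar M) where
  b : Fin k → M
  a : Fin k → M
  binj : Injective b
  ainj : Injective a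
  typ : r.pull b = r.pull a
  S : Subgroup G
  S' : Subgroup G
  φ : S ≃* S'
  finS : Finite S
  prm : ∀ s : S, ∃ π : Equiv.Perm (Fin k),
    (∀ i, (s : G) • b i = b (π i)) ∧ (∀ i, (φ s : G) • a i = a (π i))
  ne : ∀ g : G, ¬ ∀ i, g • b i ∈ Set.range a
  ne' : ∀ g : G, ¬ ∀ i, g • a i ∈ Set.range b

/-- the inverse datum -/
def Dat.symm {k : ℕ} {I : Type} {ar : I → ℕ} {G M : Type} [Group G] [MulAction G M]
    {r : Str I ar M} (d : Dat k G M r) : Dat k G M r where
  b := d.a
  a := d.b
  binj := d.ainj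
  ainj := d.binj
  typ := d.typ.symm
  S := d.S'
  S' := d.S
  φ := d.φ.symm
  finS := by
    have := d.finS
    exact Finite.of_equiv _ d.φ.toEquiv
  prm := by
    intro s
    obtain ⟨π, h1, h2⟩ := d.prm (d.φ.symm s)
    refine ⟨π, ?_, h1⟩
    simpa using h2
  ne := d.ne'
  ne' := d.ne

section words

variable {G M : Type} [Group G] [MulAction G M]

/-- a step along the letter `(g, ε)`: first `g`, then the partial map `p` or its inverse -/
def Stp (p : Set (M × M)) (l : G × Bool) (x y : M) : Prop :=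
  (l.2 = true ∧ (l.1 • x, y) ∈ p) ∨ (l.2 = false ∧ (y, l.1 • x) ∈ p)

/-- trajectories along a word -/
inductive Tr (p : Set (M × M)) : List (G × Bool) → M → M → Prop
  | nil (x : M) : Tr p [] x x
  | cons (l : G × Bool) (w : List (G × Bool)) (x y z : M) :
      Stp p l x y → Tr p w y z → Tr p (l :: w) x z

/-- the pairs of consecutive letters which can be reduced: `t⁻¹ s' t` with `s' ∈ S'` and
`t s t⁻¹` with `s ∈ S` -/
def Bad (S S' : Subgroup G) (l l' : G × Bool) : Prop :=
  (l.2 = true ∧ l'.2 = false ∧ l'.1 ∈ S') ∨ (l.2 = false ∧ l'.2 = true ∧ l'.1 ∈ S)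

/-- cyclically reduced nonempty words -/
def Cyc (S S' : Subgroup G) (w : List (G × Bool)) : Prop :=
  w ≠ [] ∧ ∀ (u v : List (G × Bool)) (l l' : G × Bool), w ++ w = u ++ l :: l' :: v →
    ¬ Bad S S' l l'

end words

/-- finite partial isomorphisms for a datum -/
structure PM {k : ℕ} {I : Type} {ar : I → ℕ} {G M : Type} [Group G] [MulAction G M]
    {r : Str I ar M} (d : Dat k G M r) (p : Set (M × M)) : Prop where
  fin : p.Finite
  fn : ∀ x y y', (x, y) ∈ p → (x, y') ∈ p → y = y'
  inj : ∀ x x' y, (x, y) ∈ p → (x', y) ∈ p → x = x'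
  ba : ∀ i, (d.b i, d.a i) ∈ p
  eqv : ∀ (s : d.S) (x y : M), (x, y) ∈ p → ((s : G) • x, (d.φ s : G) • y) ∈ p
  iso : ∀ (i : I) (v v' : Fin (ar i) → M), (∀ l, (v l, v' l) ∈ p) → (r i v ↔ r i v')
  good : ∀ w : List (G × Bool), Cyc d.S d.S' w → ∀ x : Fin k → M, Injective x →
    ¬ ∀ j, Tr p w (x j) (x j)

/-! ### the classes -/

/-- `Θ`-hypertournaments: every set with `k` points carries orderings forming a coset of `Θ` -/
def HT (k : ℕ) (Θ : Subgroup (Equiv.Perm (Fin k))) : Cls Unit (fun _ => k) where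
  K X r := (∀ a : Fin k → X, r () a → Injective a) ∧
    (∀ a : Fin k → X, Injective a → ∃ π : Equiv.Perm (Fin k), r () (fun i => a (π i))) ∧
    ∀ (a : Fin k → X) (π : Equiv.Perm (Fin k)), r () a → (r () (fun i => a (π i)) ↔ π ∈ Θ)
  pull X Y f r hf h := by
    obtain ⟨h1, h2, h3⟩ := h
    refine ⟨?_, ?_, ?_⟩
    · intro a ha x y hxy
      exact h1 (fun l => f (a l)) ha (congrArg f hxy)
    · intro a ha
      exact h2 (fun l => f (a l)) (fun x y hxy => ha (hf hxy))
    · intro a π ha
      exact h3 (fun l => f (a l)) π ha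
  loc X r h := by
    refine ⟨?_, ?_, ?_⟩
    · intro a ha
      obtain ⟨h1, -, -⟩ := h (Set.range a) (Set.finite_range a)
      have := h1 (fun l => ⟨a l, l, rfl⟩) ha
      intro x y hxy
      exact this (Subtype.ext hxy)
    · intro a ha
      obtain ⟨-, h2, -⟩ := h (Set.range a) (Set.finite_range a)
      exact h2 (fun l => ⟨a l, l, rfl⟩) (fun x y hxy => ha (congrArg Subtype.val hxy))
    · intro a π ha
      obtain ⟨-, -, h3⟩ := h (Set.range a) (Set.finite_range a)
      exact h3 (fun l => ⟨a l, l, rfl⟩) π ha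
  cnt n := by
    have : Finite (Str Unit (fun _ => k) (Fin n)) := by
      unfold Str
      infer_instance
    exact Set.to_countable _

/-- triangle-free graphs -/
def TF : Cls Unit (fun _ => 2) where
  K X r := (∀ x : X, ¬ r () ![x, x]) ∧ (∀ x y : X, r () ![x, y] → r () ![y, x]) ∧
    ∀ x y z : X, ¬ (r () ![x, y] ∧ r () ![y, z] ∧ r () ![x, z])
  pull X Y f r hf h := by
    have e : ∀ x y : X, (fun l => f ((![x, y] : Fin 2 → X) l)) = ![f x, f y] := by
      intro x y
      funext l
      fin_cases l <;> rfl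
    obtain ⟨h1, h2, h3⟩ := h
    refine ⟨?_, ?_, ?_⟩
    · intro x
      show ¬ r () _
      rw [e]
      exact h1 _
    · intro x y
      show r () _ → r () _
      rw [e, e]
      exact h2 _ _
    · intro x y z
      show ¬ (r () _ ∧ r () _ ∧ r () _)
      rw [e, e, e]
      exact h3 _ _ _
  loc X r h := by
    have e : ∀ (s : Set X) (x y : s),
        (fun l => (((![x, y] : Fin 2 → s) l : s) : X)) = ![(x : X), (y : X)] := by
      intro s x y
      funext l
      fin_cases l <;> rfl
    have key : ∀ x y z : X, ∃ (s : Set X) (_ : s.Finite) (hx : x ∈ s) (hy : y ∈ s), z ∈ s := by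
      intro x y z
      exact ⟨{x, y, z}, by simp, by simp, by simp, by simp⟩
    refine ⟨?_, ?_, ?_⟩
    · intro x hx
      obtain ⟨s, hs, h1, h2, h3⟩ := key x x x
      have := (h s hs).1 ⟨x, h1⟩
      unfold Str.pull at this
      rw [e] at this
      exact this hx
    · intro x y hx
      obtain ⟨s, hs, h1, h2, h3⟩ := key x y x
      have := (h s hs).2.1 ⟨x, h1⟩ ⟨y, h2⟩
      unfold Str.pull at this
      rw [e, e] at this
      exact this hx
    · intro x y z hx
      obtain ⟨s, hs, h1, h2, h3⟩ := key x y z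
      have := (h s hs).2.2 ⟨x, h1⟩ ⟨y, h2⟩ ⟨z, h3⟩
      unfold Str.pull at this
      rw [e, e, e] at this
      exact this hx
  cnt n := by
    have : Finite (Str Unit (fun _ => 2) (Fin n)) := by
      unfold Str
      infer_instance
    exact Set.to_countable _

section prod

variable {I I' : Type} {ar : I → ℕ} {ar' : I' → ℕ}

/-- the first reduct -/
def Str.fst {X : Type} (r : Str (I ⊕ I') (Sum.elim ar ar') X) : Str I ar X :=
  fun i v => r (Sum.inl i) v

/-- the second reduct -/
def Str.snd {X : Type} (r : Str (I ⊕ I') (Sum.elim ar ar') X) : Str I' ar' X :=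
  fun i v => r (Sum.inr i) v

/-- the superposition of two structures -/
def Str.mk2 {X : Type} (r : Str I ar X) (r' : Str I' ar' X) :
    Str (I ⊕ I') (Sum.elim ar ar') X :=
  fun i => match i with
    | Sum.inl i => fun v => r i v
    | Sum.inr i => fun v => r' i v

/-- the free superposition of two classes -/
def Cls.prod (𝒞 : Cls I ar) (𝒞' : Cls I' ar') : Cls (I ⊕ I') (Sum.elim ar ar') where
  K X r := 𝒞.K X r.fst ∧ 𝒞'.K X r.snd
  pull X Y f r hf h := ⟨𝒞.pull X Y f r.fst hf h.1, 𝒞'.pull X Y f r.snd hf h.2⟩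
  loc X r h := ⟨𝒞.loc X r.fst fun s hs => (h s hs).1, 𝒞'.loc X r.snd fun s hs => (h s hs).2⟩
  cnt n := by
    have h1 := 𝒞.cnt n
    have h2 := 𝒞'.cnt n
    have h3 : {r : Str (I ⊕ I') (Sum.elim ar ar') (Fin n) |
        𝒞.K (Fin n) r.fst ∧ 𝒞'.K (Fin n) r.snd} ⊆
        (fun q : Str I ar (Fin n) × Str I' ar' (Fin n) => Str.mk2 q.1 q.2) ''
          ({r | 𝒞.K (Fin n) r} ×ˢ {r | 𝒞'.K (Fin n) r}) := by
      intro r hr
      refine ⟨(r.fst, r.snd), ⟨hr.1, hr.2⟩, ?_⟩
      funext i v
      rcases i with i | i <;> rfl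
    exact ((h1.prod h2).image _).mono h3

end prod

/-! ### the affine group of a prime field -/

/-- the permutations `i ↦ u i + b` of `Fin p`, identified with `ZMod p` -/
def Aff (p : ℕ) [NeZero p] : Subgroup (Equiv.Perm (Fin p)) where
  carrier := {π | ∃ (u : (ZMod p)ˣ) (b : ZMod p), ∀ i, ZMod.finEquiv p (π i) =
    (u : ZMod p) * ZMod.finEquiv p i + b}
  mul_mem' := by
    rintro π σ ⟨u, b, h⟩ ⟨u', b', h'⟩
    refine ⟨u * u', u * b' + b, fun i => ?_⟩
    rw [Equiv.Perm.mul_apply, h, h']
    push_cast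
    ring
  one_mem' := ⟨1, 0, fun i => by simp⟩
  inv_mem' := by
    rintro π ⟨u, b, h⟩
    refine ⟨u⁻¹, -((u⁻¹ : (ZMod p)ˣ) : ZMod p) * b, fun i => ?_⟩
    have h1 := h (π⁻¹ i)
    have h0 : π (π⁻¹ i) = i := Equiv.apply_symm_apply π i
    rw [h0] at h1
    rw [h1, mul_add, ← mul_assoc]
    have h2 : ((u⁻¹ : (ZMod p)ˣ) : ZMod p) * (u : ZMod p) = 1 := by
      rw [← Units.val_mul, inv_mul_cancel, Units.val_one]
    rw [h2]
    ring

/-! ### the free superposition of the random 4-tournament and the triangle-free random graph -/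

/-- 4-tournaments -/
def IsT4 {M : Type} (R : (Fin 4 → M) → Prop) : Prop :=
  (∀ a, R a → Injective a) ∧ ∀ a, Injective a → ∀ π : Equiv.Perm (Fin 4),
    (R (fun i => a (π i)) ↔ (R a ↔ Equiv.Perm.sign π = 1))

/-- triangle-free graphs -/
def IsTF {M : Type} (E : M → M → Prop) : Prop :=
  (∀ x, ¬ E x x) ∧ (∀ x y, E x y → E y x) ∧ ∀ x y z, ¬ (E x y ∧ E y z ∧ E x z)

/-- the free superposition: a countably infinite ultrahomogeneous structure, a 4-tournament with a
triangle-free graph, into which all finite ones embed -/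
structure IsLim (M : Type) (R : (Fin 4 → M) → Prop) (E : M → M → Prop) : Prop where
  cnt : Countable M
  inf : Infinite M
  t4 : IsT4 R
  tf : IsTF E
  univ : ∀ (n : ℕ) (R₀ : (Fin 4 → Fin n) → Prop) (E₀ : Fin n → Fin n → Prop), IsT4 R₀ →
    IsTF E₀ → ∃ f : Fin n → M, Injective f ∧ (∀ a, R₀ a ↔ R (fun i => f (a i))) ∧
      ∀ x y, E₀ x y ↔ E (f x) (f y)
  homog : ∀ A : Set M, A.Finite → ∀ f : A → M, Injective f →
    (∀ a : Fin 4 → A, R (fun i => (a i : M)) ↔ R (fun i => f (a i))) →
    (∀ x y : A, E x y ↔ E (f x) (f y)) →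
    ∃ σ : Equiv.Perm M, (∀ a, R (fun i => σ (a i)) ↔ R a) ∧ (∀ x y, E (σ x) (σ y) ↔ E x y) ∧
      ∀ x : A, σ x = f x

/-- the class of 4-tournaments with a triangle-free graph -/
def C4 : Cls (Unit ⊕ Unit) (Sum.elim (fun _ => 4) (fun _ => 2)) :=
  (HT 4 (alternatingGroup (Fin 4))).prod TF

end Q32.SK
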