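import Pool.Agent.Q32.SK.Stm

/-!
# Project SK, second part: the rational Urysohn space. Definitions.
-/

set_option autoImplicit false

namespace Q32.SK

open Function

/-- rational metrics -/
structure IsMet {X : Type} (d : X → X → ℚ) : Prop where
  self : ∀ x, d x x = 0
  pos : ∀ x y, x ≠ y → 0 < d x y
  symm : ∀ x y, d x y = d y x
  tri : ∀ x y z, d x z ≤ d x y + d y z

/-- the structure of a metric: `r q` is the relation `d x y = q` -/
def mstr {X : Type} (d : X → X → ℚ) : Str ℚ (fun _ => 2) X := fun q v => d (v 0) (v 1) = q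

/-- rational metric spaces -/
def RM : Cls ℚ (fun _ => 2) where
  K X r := ∃ d : X → X → ℚ, IsMet d ∧ r = mstr d
  pull X Y f r hf h := by
    obtain ⟨d, hd, rfl⟩ := h
    refine ⟨fun x y => d (f x) (f y), ⟨?_, ?_, ?_, ?_⟩, rfl⟩
    · intro x
      exact hd.self _
    · intro x y hxy
      exact hd.pos _ _ (fun h => hxy (hf h))
    · intro x y
      exact hd.symm _ _
    · intro x y z
      exact hd.tri _ _ _
  loc X r h := by
    have key : ∀ s : Set X, s.Finite → ∃ d : s → s → ℚ, IsMet d ∧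
        ∀ (q : ℚ) (v : Fin 2 → X) (hv : ∀ l, v l ∈ s),
          (r q v ↔ d ⟨v 0, hv 0⟩ ⟨v 1, hv 1⟩ = q) := by
      intro s hs
      obtain ⟨d, hd, he⟩ := h s hs
      refine ⟨d, hd, fun q v hv => ?_⟩
      have h1 := congrFun (congrFun he q) (fun l => ⟨v l, hv l⟩)
      have h2 : r.pull (Subtype.val : s → X) q (fun l => ⟨v l, hv l⟩) = r q v := rfl
      rw [h2] at h1
      rw [h1]
      rfl
    have hex : ∀ x y : X, ∃ q : ℚ, ∀ v : Fin 2 → X, v 0 = x → v 1 = y → ∀ q', r q' v ↔ q = q' := by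
      intro x y
      obtain ⟨d, hd, he⟩ := key {x, y} (by simp)
      refine ⟨d ⟨x, by simp⟩ ⟨y, by simp⟩, fun v h0 h1 q' => ?_⟩
      subst h0 h1
      exact he q' v (fun l => by fin_cases l <;> simp)
    choose D hD using hex
    have hDs : ∀ (s : Set X) (hs : s.Finite) (d : s → s → ℚ), (∀ (q : ℚ) (v : Fin 2 → X)
        (hv : ∀ l, v l ∈ s), (r q v ↔ d ⟨v 0, hv 0⟩ ⟨v 1, hv 1⟩ = q)) →
        ∀ x y : s, d x y = D x y := by
      intro s hs d hd x y
      have hv : ∀ l, (![(x : X), (y : X)] : Fin 2 → X) l ∈ s := by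
        intro l
        fin_cases l
        · exact x.2
        · exact y.2
      have h1 := hd (D x y) ![x, y] hv
      have h2 := hD x y ![x, y] rfl rfl (D x y)
      exact h1.1 (h2.2 rfl)
    refine ⟨D, ⟨?_, ?_, ?_, ?_⟩, ?_⟩
    · intro x
      obtain ⟨d, hd, he⟩ := key {x} (by simp)
      rw [← hDs _ (by simp) d he ⟨x, by simp⟩ ⟨x, by simp⟩]
      exact hd.self _
    · intro x y hxy
      obtain ⟨d, hd, he⟩ := key {x, y} (by simp)
      rw [← hDs _ (by simp) d he ⟨x, by simp⟩ ⟨y, by simp⟩]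
      exact hd.pos _ _ (fun h => hxy (congrArg Subtype.val h))
    · intro x y
      obtain ⟨d, hd, he⟩ := key {x, y} (by simp)
      rw [← hDs _ (by simp) d he ⟨x, by simp⟩ ⟨y, by simp⟩,
        ← hDs _ (by simp) d he ⟨y, by simp⟩ ⟨x, by simp⟩]
      exact hd.symm _ _
    · intro x y z
      obtain ⟨d, hd, he⟩ := key {x, y, z} (by simp)
      rw [← hDs _ (by simp) d he ⟨x, by simp⟩ ⟨y, by simp⟩,
        ← hDs _ (by simp) d he ⟨y, by simp⟩ ⟨z, by simp⟩,
        ← hDs _ (by simp) d he ⟨x, by simp⟩ ⟨z, by simp⟩]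
      exact hd.tri _ _ _
    · funext q v
      exact propext (hD (v 0) (v 1) v rfl rfl q)
  cnt n := by
    have h : {r : Str ℚ (fun _ => 2) (Fin n) | ∃ d : Fin n → Fin n → ℚ, IsMet d ∧ r = mstr d} ⊆
        Set.range (fun d : Fin n → Fin n → ℚ => mstr d) := by
      rintro r ⟨d, -, rfl⟩
      exact ⟨d, rfl⟩
    exact (Set.countable_range _).mono h

/-- SEAP: equivariant extensions without any condition on the action -/
def SEAP {I : Type} {ar : I → ℕ} (𝒞 : Cls I ar) : Prop :=
  ∀ (G M : Type) [Group G] [MulAction G M] [Nonempty M] (r : Str I ar M), 𝒞.K M r →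
    (∀ g : G, r.pull (fun x => g • x) = r) →
    ∀ (J : Type) [Finite J] (S : Subgroup G) (C : Set M) (D : Str I ar (Ex G M J)),
      Adm 𝒞 r S C D →
      ∃ r' : Str I ar (Ex G M J), 𝒞.K (Ex G M J) r' ∧
        (∀ g : G, r'.pull (fun x => g • x) = r') ∧ r'.pull (Ex.old J) = r ∧
        ∀ (i : I) (v : Fin (ar i) → Ex G M J), (∀ l, v l ∈ Zs S C J) → (r' i v ↔ D i v)

/-- The datum of an amalgamation step: an injective tuple `b` whose set has trivial stabiliser, and a
group `H` of permutations of `Fin k` preserving its type. -/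
structure UDat (k : ℕ) {I : Type} {ar : I → ℕ} (G M : Type) [Group G] [MulAction G M]
    (r : Str I ar M) where
  b : Fin k → M
  binj : Injective b
  H : Subgroup (Equiv.Perm (Fin k))
  typ : ∀ h ∈ H, r.pull (fun i => b (h i)) = r.pull b
  triv : ∀ g : G, (∀ i, g • b i ∈ Set.range b) → g = 1

/-- the condition on the numbers: a set with `k` elements consisting of an `h`-invariant subset `O` of
`Fin k` and of free orbits of `h` contains the fixed points of `h` -/
def HC (k : ℕ) (H : Subgroup (Equiv.Perm (Fin k))) : Prop :=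
  ∀ h ∈ H, h ≠ 1 → ∀ O : Finset (Fin k), (∀ i ∈ O, h i ∈ O) →
    (∃ q : ℕ, O.card + q * orderOf h = k) → ∀ x, h x = x → x ∈ O

section words

variable {G M H : Type} [Group G] [MulAction G M] [Group H]

/-- trajectories: along the letter `(g, h)` first `g`, then the partial action `α` of `h` on `X` -/
inductive UTr (X : Set M) (α : H → M → M) : List (G × H) → M → M → Prop
  | nil (x : M) : UTr X α [] x x
  | cons (l : G × H) (w : List (G × H)) (x z : M) :
      l.1 • x ∈ X → UTr X α w (α l.2 (l.1 • x)) z → UTr X α (l :: w) x z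

/-- reduced words -/
def URed (w : List (G × H)) : Prop := w ≠ [] ∧ ∀ l ∈ w, l.1 ≠ 1 ∧ l.2 ≠ 1

end words

/-- finite partial actions of `H` extending the natural action on `b` -/
structure UPM {k : ℕ} {I : Type} {ar : I → ℕ} {G M : Type} [Group G] [MulAction G M]
    {r : Str I ar M} (d : UDat k G M r) (X : Set M) (α : d.H → M → M) : Prop where
  fin : X.Finite
  mem : ∀ h, ∀ x ∈ X, α h x ∈ X
  one : ∀ x ∈ X, α 1 x = x
  mul : ∀ h h', ∀ x ∈ X, α (h * h') x = α h (α h' x)
  bas : ∀ i, d.b i ∈ X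
  bac : ∀ (h : d.H) (i : Fin k), α h (d.b i) = d.b ((h : Equiv.Perm (Fin k)) i)
  fre : ∀ h, ∀ x ∈ X, x ∉ Set.range d.b → α h x = x → h = 1
  iso : ∀ h (i : I) (v : Fin (ar i) → M), (∀ l, v l ∈ X) → (r i (fun l => α h (v l)) ↔ r i v)
  good : ∀ w : List (G × d.H), URed w → ∀ x : Fin k → M, Injective x →
    ¬ ∀ j, UTr X α w (x j) (x j)

/-- rational Urysohn spaces: countable, rational distances, universal and ultrahomogeneous -/
structure IsQU (M : Type) (d : M → M → ℚ) : Prop where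
  cnt : Countable M
  met : IsMet d
  univ : ∀ (n : ℕ) (d₀ : Fin n → Fin n → ℚ), IsMet d₀ →
    ∃ f : Fin n → M, ∀ x y, d (f x) (f y) = d₀ x y
  homog : ∀ A : Set M, A.Finite → ∀ f : A → M, (∀ x y : A, d (f x) (f y) = d x y) →
    ∃ σ : Equiv.Perm M, (∀ x y, d (σ x) (σ y) = d x y) ∧ ∀ x : A, σ x = f x

end Q32.SK
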