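import Pool.Agent.Q32.SK.Cnt

/-!
# Project SK: FNA
-/

set_option autoImplicit false

namespace Q32.SK

open Function

theorem kact_fin {k : ℕ} {G U : Type} [Group G] [MulAction G U] [Infinite U]
    (h : KAct k G U) : Finite (MulAction.orbitRel.Quotient G (Fin k ↪ U)) ∧
      Nonempty (MulAction.orbitRel.Quotient G (Fin k ↪ U)) := by
  classical
  obtain ⟨a₀⟩ : Nonempty (Fin k ↪ U) := by
    obtain ⟨s, hs⟩ := Infinite.exists_subset_card_eq U k
    exact ⟨⟨fun i => ((Finset.equivFinOfCardEq hs).symm i : U), fun i j hij =>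
      (Finset.equivFinOfCardEq hs).symm.injective (Subtype.ext hij)⟩⟩
  refine ⟨?_, ⟨Quotient.mk _ a₀⟩⟩
  refine Finite.of_surjective (α := Equiv.Perm (Fin k))
    (fun π => Quotient.mk _ (π.toEmbedding.trans a₀)) ?_
  intro q
  induction q using Quotient.inductionOn with
  | h a =>
    obtain ⟨g, hg⟩ := h.2 (Finset.univ.map a₀) (Finset.univ.map a) (by simp) (by simp)
    have h1 : ∀ i, ∃ j, a₀ j = g⁻¹ • a i := by
      intro i
      have h2 := (hg (g⁻¹ • a i)).2 (by simp)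
      simpa using h2
    choose π hπ using h1
    have hinj : Injective π := by
      intro i j hij
      have h3 := congrArg a₀ hij
      rw [hπ, hπ] at h3
      exact a.injective (MulAction.injective g⁻¹ h3)
    refine ⟨Equiv.ofBijective π (Finite.injective_iff_bijective.1 hinj), ?_⟩
    apply Quotient.sound
    refine ⟨g⁻¹, ?_⟩
    apply Function.Embedding.ext
    intro i
    exact (hπ i).symm

theorem fna : S_FNA := by
  intro cnt hW
  refine ⟨{p | p.Prime}, Nat.infinite_setOfPred_prime, 2, 1 / 2, by norm_num, by norm_num, ?_⟩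
  intro p hp
  have hp' : p.Prime := hp
  have : Fact p.Prime := ⟨hp'⟩
  obtain ⟨W, hT⟩ := hW p
  obtain ⟨h1, h2⟩ := cnt p W hT
  have hk : KAct p W.G W.M := ⟨W.good.shp, h1⟩
  set n := Nat.card (MulAction.orbitRel.Quotient W.G (Fin p ↪ W.M)) with hn
  let N : Set ℕ := {n | ∃ (G U : Type) (_ : Group G) (_ : MulAction G U) (_ : Countable U)
    (_ : Infinite U), KAct p G U ∧ Nat.card (MulAction.orbitRel.Quotient G (Fin p ↪ U)) = n}
  have hmem : n ∈ N := ⟨W.G, W.M, inferInstance, inferInstance, inferInstance, inferInstance, hk,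
    rfl⟩
  have hle : tau' p ≤ n := Nat.sInf_le hmem
  have hpos : 0 < tau' p := by
    have h3 : tau' p ∈ N := Nat.sInf_mem ⟨n, hmem⟩
    obtain ⟨G, U, _, _, _, _, h4, h5⟩ := h3
    obtain ⟨h6, h7⟩ := kact_fin h4
    rw [← h5]
    exact Nat.card_pos
  have hcast : (p.factorial : ℝ) = (n : ℝ) * ((p : ℝ) * ((p : ℝ) - 1)) := by
    rw [← h2]
    push_cast [Nat.cast_sub hp'.one_le]
    ring
  have hp2 : (2 : ℝ) ≤ p := by exact_mod_cast hp'.two_le
  have hnn : (0 : ℝ) < tau' p := by exact_mod_cast hpos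
  have hln : (tau' p : ℝ) ≤ n := by exact_mod_cast hle
  rw [le_div_iff₀ hnn, hcast]
  have h8 : (p : ℝ) ^ (2 : ℝ) = (p : ℝ) ^ 2 := by
    rw [← Real.rpow_natCast]
    norm_num
  rw [h8]
  have h9 : (1 / 2 : ℝ) * (p : ℝ) ^ 2 ≤ (p : ℝ) * ((p : ℝ) - 1) := by nlinarith
  have h10 : (0 : ℝ) ≤ (p : ℝ) * ((p : ℝ) - 1) := by nlinarith
  calc (1 / 2 : ℝ) * (p : ℝ) ^ 2 * (tau' p : ℝ) ≤ ((p : ℝ) * ((p : ℝ) - 1)) * n :=
        mul_le_mul h9 hln hnn.le h10
    _ = _ := by ring

end Q32.SK
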