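import Pool.Agent.Q32.SK.Def2

/-!
# Project SK, second part: statements (see `Stm.lean` for the conventions)
-/

set_option autoImplicit false

namespace Q32.SK

open Function

/-- SEA. Equivariant extensions of rational metric spaces. Proof. (0) If `J` is empty let the metric be
that of `M` (all points are old). (1) We may assume that `C` is nonempty: if `C = ∅` choose `c₀ ∈ M`, let
`C'` be the finite set `S c₀`, and extend `D` (a metric on the new points of `Zs S ∅ J`) to
`Zs S C' J` by the metric of `M` on `C'` and a large constant `K` between `C'` and the new points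
(`2 K` at least all distances which occur inside the two parts): a metric, invariant under `S`.
(2) Let `δ` be the metric of `D` on `Zs S C J`, `d` the metric of `M`. For the new point `x = (g, j)` and
`m ∈ M` put `f x m = min over c ∈ C of δ ((1, j), c) + d (g c, m)`. For two new points
`x = (g, j)`, `y = (h, i)` put `ρ x y = δ ((1, j), (g⁻¹ h, i))` if `g⁻¹ h ∈ S`, and otherwise
`ρ x y = min over c, c' ∈ C of δ ((1, j), c) + d (g c, h c') + δ (c', (1, i))`. In words: the spaces
`γ Zs` (`γ ∈ G / S`) are glued to `M` along `γ C`, and the metric is the shortest path metric. Facts: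
`f (s, j) c = δ ((s, j), c)` for `s ∈ S`, `c ∈ C` (take `c' = s⁻¹ c` and use the triangle inequality);
`f x m ≤ f x m' + d m' m`; `d m m' ≤ f x m + f x m'` (since `d (g c, g c') = δ (c, c') ≤ δ ((1, j), c)
+ δ ((1, j), c')`); if `x`, `y` are in the same piece (`g⁻¹ h ∈ S`) then `|f x m - f y m| ≤ ρ x y ≤
f x m + f y m`; if they are in different pieces then `ρ x y` = min over `c'` of `f x (h c') +
δ (c', (1, i))`, so `|f x m - f y m| ≤ ρ x y ≤ f x m + f y m` too; triangle inequality for three
new points: distinguish which of them are in the same piece. Positivity: all terms of the finite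
minima are positive. Invariance under `G` is clear. (3) `r'` is the structure of this metric. -/
def S_SEA : Prop := SEAP RM

/-- SEB. Consequence. Proof. `EAP` has more hypotheses. -/
def S_SEB : Prop := ∀ (k : ℕ) (I : Type) (ar : I → ℕ) (𝒞 : Cls I ar), SEAP 𝒞 → EAP k 𝒞

/-- MR. Many free points at once. Proof. Induction on the number of elements of `J`, using Rich with
`S = ⊥`, the finite set `C ∪ {points found so far}` and `F' = F ∪ C ∪ {points found so far}`. -/
def S_MR : Prop := ∀ (I : Type) (ar : I → ℕ) (𝒞 : Cls I ar) (G M : Type) [Group G]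
  [MulAction G M] (r : Str I ar M), Rich 𝒞 G M r → ∀ (C : Set M), C.Finite →
  ∀ (J : Type) [Finite J] (E : Str I ar (C ⊕ J)), 𝒞.K (C ⊕ J) E →
  E.pull Sum.inl = r.pull (Subtype.val : C → M) → ∀ F : Set M, F.Finite →
  ∃ y : J → M, (∀ (j : J) (g : G), g • y j ∉ C ∧ g • y j ∉ F) ∧
    (∀ (j j' : J) (g : G), g • y j = y j' → g = 1 ∧ j = j') ∧
    r.pull (Sum.elim (Subtype.val : C → M) y) = E

/-- UNO. New points are not used by closed trajectories. The points `y h` with `h ≠ 1` are fresh: if
`g • y h` is in `X' = X ∪ range y` then `g = 1`. Proof. Let `l = (g, h)` be a letter and `z` the point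
before it, so `g • z ∈ X'`. If `g • z ∈ X` the step is an old one. Otherwise `g • z = y h₁` and
the step ends in `y (h h₁)`; as `h ≠ 1`, `h₁ ≠ 1` or `h h₁ ≠ 1`. If `h h₁ ≠ 1`: the next letter
`(g', h')` (cyclically) needs `g' • y (h h₁) ∈ X'`, so `g' = 1`, a contradiction. If `h₁ ≠ 1`: the
previous step (cyclically) ended in `z ∈ X'`, and `z = g⁻¹ • y h₁`, so `g = 1`, a contradiction. -/
def S_UNO : Prop := ∀ (G M H : Type) [Group G] [MulAction G M] [Group H] (X : Set M)
  (α α' : H → M → M) (y : H → M), (∀ h, ∀ x ∈ X, α h x ∈ X) →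
  (∀ h, ∀ x ∈ X, α' h x = α h x) → (∀ h h', α' h (y h') = y (h * h')) →
  (∀ (h : H) (g : G), h ≠ 1 → g • y h ∈ X ∪ Set.range y → g = 1) →
  ∀ w : List (G × H), URed w → ∀ z : M, UTr (X ∪ Set.range y) α' w z z → UTr X α w z z

/-- UIN. The initial partial action. Proof. `X = range b`, `α h (b i) = b (h i)` (`b` is injective).
`iso` is `typ` (and `typ` for the tuple `v = b ∘ u`). `good`: for `k` distinct points with closed
trajectories, after each letter they form the set `range b`; so the element `g` of each letter maps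
`range b` to `range b` (cyclically), hence `g = 1` by `triv`, against `URed`. (For `k = 0` the
hypothesis `triv` says `G` is trivial and again `URed` fails.) -/
def S_UIN : Prop := ∀ (k : ℕ) (I : Type) (ar : I → ℕ) (G M : Type) [Group G] [MulAction G M]
  (r : Str I ar M) (d : UDat k G M r), ∃ α : d.H → M → M, UPM d (Set.range d.b) α

/-- UEX. Extension. Proof. Let `x ∉ X`. `d.H` acts on the finite set `X` by `α`; it is nonempty if
`k > 0`; (if `k = 0`, `G` is trivial, `Fin 0` has only the identity permutation, `d.H` is trivial and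
`X' = X ∪ {x}`, `α' = id` works). By SEAP for the group `d.H`, the set `X` with `r` restricted,
`S = ⊥`, `C` = everything, `J = Unit` and `D` = the structure of `X ∪ {x}` (old points are
themselves, the new point is `x`) there is an invariant structure `r'` in the class on
`Ex d.H X Unit`, which restricts to that of `X ∪ {x}`. By MR (with `C = X ∪ {x}`,
`J` = the elements `≠ 1` of `d.H`, `E` = `r'` seen as a structure on `C ⊕ J`) there are points `y h`
(`h ≠ 1`) such that with `y 1 = x` the map `old c ↦ c`, `new h ↦ y h` is an isomorphism from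
`r'` to the structure of `X' = X ∪ range y`, with the freshness needed in UNO. Let `α' h c = α h c` on
`X` and `α' h (y h') = y (h h')`. `good` by UNO, `iso` since `r'` is invariant, `fre` clear. -/
def S_UEX : Prop := S_UNO → S_MR → ∀ (k : ℕ) (I : Type) (ar : I → ℕ) (𝒞 : Cls I ar),
  SEAP 𝒞 → ∀ (G M : Type)
  [Group G] [MulAction G M] (r : Str I ar M), Good k 𝒞 G M r → Rich 𝒞 G M r →
  ∀ (d : UDat k G M r) (X : Set M) (α : d.H → M → M), UPM d X α → ∀ x : M,
    ∃ (X' : Set M) (α' : d.H → M → M), X ⊆ X' ∧ (∀ h, ∀ z ∈ X, α' h z = α h z) ∧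
      UPM d X' α' ∧ x ∈ X'

/-- UGE. The generic action of `H`. Proof. UIN, enumerate `M` and iterate UEX; take the union. A
closed trajectory uses finitely many points. -/
def S_UGE : Prop := S_UIN → S_UNO → S_MR → S_UEX → ∀ (k : ℕ) (I : Type) (ar : I → ℕ)
  (𝒞 : Cls I ar), SEAP 𝒞 → ∀ (G M : Type) [Group G] [MulAction G M] [Countable M]
  (r : Str I ar M), Good k 𝒞 G M r → Rich 𝒞 G M r → ∀ (d : UDat k G M r),
    ∃ α : d.H →* Equiv.Perm M,
      (∀ (h : d.H) (i : Fin k), α h (d.b i) = d.b ((h : Equiv.Perm (Fin k)) i)) ∧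
      (∀ (h : d.H) (x : M), x ∉ Set.range d.b → α h x = x → h = 1) ∧
      (∀ h : d.H, r.pull (fun x => α h x) = r) ∧
      ∀ w : List (G × d.H), URed w → ∀ x : Fin k → M, Injective x →
        ¬ ∀ j, UTr Set.univ (fun h x => α h x) w (x j) (x j)

/-- UGR. The group generated by `G` and `H`. Proof. For a word `w = (g₁, h₁) … (gₙ, hₙ)` let `val w`
be the permutation `x ↦ hₙ gₙ ⋯ h₁ g₁ x` (so `UTr univ α w x y ↔ val w x = y`). CLAIM: every
element of the group is conjugate in it to an element of `G`, to an element of `α(H)`, or to `val w`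
for a reduced `w`. (Write it as `g • val w`, or conjugate to `val w`, with `w` of least
length `n`. If `n = 0` it is in `G`. If some letter has `h = 1` it can be merged with
the next letter cyclically, or if `n = 1` the element is in `G`; if some letter has `g = 1` it can be
merged with the previous letter cyclically (`h' h`), or if `n = 1` the element is in `α(H)`.) `shp`: an
element fixing `k` distinct points is conjugate to `g` (then `1` by `shp`) or to `α h`: if `h ≠ 1`
its fixed points are in `range b`, and they would be all of `range b`, so `h = 1`. `fre`: let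
`u ≠ 1` preserve `D`, `|D| = k`, `u x = x`. A power of `u` fixes the `k` points of `D`; powers of reduced
words are reduced, so `u` is conjugate to an element of `G` (use `fre` of `G`) or to `α h`, `h ≠ 1`;
replace `D`, `x` by their images. The fixed point `x` of `α h` is in `range b`, `x = b i`. All
orbits of `α h` outside `range b` have `orderOf h` elements (`fre`-clause of the action for the
powers of `h`), so with `O = {i | b i ∈ D}` and HC we get `i ∈ O`. -/
def S_UGR : Prop := ∀ (k : ℕ) (I : Type) (ar : I → ℕ) (𝒞 : Cls I ar) (G M : Type)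
  [Group G] [MulAction G M] [Countable G] (r : Str I ar M), Good k 𝒞 G M r →
  ∀ (d : UDat k G M r), HC k d.H → ∀ (α : d.H →* Equiv.Perm M),
    (∀ (h : d.H) (i : Fin k), α h (d.b i) = d.b ((h : Equiv.Perm (Fin k)) i)) →
    (∀ (h : d.H) (x : M), x ∉ Set.range d.b → α h x = x → h = 1) →
    (∀ h : d.H, r.pull (fun x => α h x) = r) →
    (∀ w : List (G × d.H), URed w → ∀ x : Fin k → M, Injective x →
        ¬ ∀ j, UTr Set.univ (fun h x => α h x) w (x j) (x j)) →
    Countable (Subgroup.closure (Set.range (MulAction.toPermHom G M) ∪ Set.range α)) ∧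
    Good k 𝒞 (Subgroup.closure (Set.range (MulAction.toPermHom G M) ∪ Set.range α)) M r

/-- UST. The amalgamation step. Proof. UGE and UGR; `B.M = A.M`, the group is the closure,
`e = (toPermHom, id)`. -/
def S_UST : Prop := S_UIN → S_UNO → S_MR → S_UEX → S_UGE → S_UGR →
  ∀ (k : ℕ) (I : Type) (ar : I → ℕ) (𝒞 : Cls I ar), SEAP 𝒞 → ∀ (A : Stg k 𝒞),
  Rich 𝒞 A.G A.M A.r → ∀ (b : Fin k → A.M), Injective b →
  (∀ g : A.G, (∀ i, g • b i ∈ Set.range b) → g = 1) →
  (∀ H : Subgroup (Equiv.Perm (Fin k)), HC k H) →
  ∃ (B : Stg k 𝒞) (e : Ext A B), Full B.G B.M B.r (fun i => e.ι (b i))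

/-- HCA. The condition on numbers for `k = 2, 3`. Proof. `k = 2`: a permutation `≠ 1` of `Fin 2` has no
fixed point. `k = 3`: a permutation `h ≠ 1` with a fixed point `x` is a transposition of order 2, so
`O.card` is 1 or 3, and an invariant set with one element is `{x}`. -/
def S_HCA : Prop := (∀ H : Subgroup (Equiv.Perm (Fin 2)), HC 2 H) ∧
  ∀ H : Subgroup (Equiv.Perm (Fin 3)), HC 3 H

/-- HFR. Full tuples by amalgamation. Proof. Let `B` and `r₀` be given. Apply EAP (SEB) in `B` with
`S = ⊥`, `C = ∅`, `J = Fin k`, `D` given by `r₀` on the new points, and EXG: a stage with a tuple `b` of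
new points, in different free orbits, of type `r₀`. Take a rich extension with the same group (RIC):
there only `1` maps `range b` into itself. Apply UST. (The type of `e.ι ∘ b` is `r₀`.) -/
def S_HFR : Prop := S_BOOK → S_LIM → S_EXG → S_RIC → S_SEB →
  S_UIN → S_UNO → S_MR → S_UEX → S_UGE → S_UGR → S_UST →
  ∀ (k : ℕ) (I : Type) (ar : I → ℕ) (𝒞 : Cls I ar), SEAP 𝒞 →
  (∀ H : Subgroup (Equiv.Perm (Fin k)), HC k H) → ∀ A₀ : Stg k 𝒞, HFull A₀

/-- BAR. The base stage for metric spaces: the trivial group acting on `ℕ` with all distances of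
distinct points equal to 1. -/
def S_BAR : Prop := ∀ k : ℕ, Nonempty (Stg k RM)

/-- FNC. The third result. Proof. Let `W` be a stage with `PtExt`, `d` its metric. `PtExt` implies by
back and forth that `(W.M, d)` is a rational Urysohn space. Any other one has the one point
extension property, so it is isometric to `W.M` by back and forth; transport the action. `W` for
`k = 2` gives the first claim. -/
def S_FNC : Prop := (∀ k, k = 2 ∨ k = 3 → ∃ W : Stg k RM, Trans W ∧ PtExt W) →
  (∃ (M : Type) (d : M → M → ℚ), IsQU M d) ∧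
  ∀ k, k = 2 ∨ k = 3 → ∀ (M : Type) (d : M → M → ℚ), IsQU M d →
    ∃ (G : Type) (_ : Group G) (_ : MulAction G M),
      (∀ (g : G) (x y : M), d (g • x) (g • y) = d x y) ∧
      ∀ a b : Fin k → M, Injective a → Injective b → (∀ i j, d (a i) (a j) = d (b i) (b j)) →
        ∃! g : G, ∀ i, g • a i = b i

/-- assembly of the third result -/
theorem resC (book : S_BOOK) (lim : S_LIM) (exg : S_EXG) (ric : S_RIC) (sea : S_SEA) (seb : S_SEB)
    (mr : S_MR) (uno : S_UNO) (uin : S_UIN) (uex : S_UEX) (uge : S_UGE) (ugr : S_UGR)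
    (ust : S_UST) (hca : S_HCA) (hfr : S_HFR) (bar : S_BAR) (fnc : S_FNC)
    (mach : ∀ (k : ℕ) (I : Type) (ar : I → ℕ) (𝒞 : Cls I ar), EAP k 𝒞 → ∀ A₀ : Stg k 𝒞,
      HFull A₀ → ∃ W : Stg k 𝒞, Nonempty (Ext A₀ W) ∧ Trans W ∧ PtExt W) :
    (∃ (M : Type) (d : M → M → ℚ), IsQU M d) ∧
    ∀ k, k = 2 ∨ k = 3 → ∀ (M : Type) (d : M → M → ℚ), IsQU M d →
    ∃ (G : Type) (_ : Group G) (_ : MulAction G M),
      (∀ (g : G) (x y : M), d (g • x) (g • y) = d x y) ∧
      ∀ a b : Fin k → M, Injective a → Injective b → (∀ i j, d (a i) (a j) = d (b i) (b j)) →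
        ∃! g : G, ∀ i, g • a i = b i := by
  refine fnc ?_
  intro k hk
  obtain ⟨A₀⟩ := bar k
  have hH : ∀ H : Subgroup (Equiv.Perm (Fin k)), HC k H := by
    rcases hk with rfl | rfl
    · exact hca.1
    · exact hca.2
  obtain ⟨W, -, h1, h2⟩ := mach k ℚ _ RM (seb k ℚ _ RM sea) A₀
    (hfr book lim exg ric seb uin uno mr uex uge ugr ust k ℚ _ RM sea hH A₀)
  exact ⟨W, h1, h2⟩

end Q32.SK
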