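import Pool.Agent.Q32.SK.Main
import Pool.Agent.Q32.SK.Stm2
import Pool.Agent.Q32.SK.Fna
import Pool.Agent.Q184.SK.Book
import Pool.Agent.Q184.SK.Lim
import Pool.Agent.Q184.SK.Free
import Pool.Agent.Q184.SK.Ric
import Pool.Agent.Q95.SK.NON
import Pool.Agent.Q182.SK.Ini
import Pool.Agent.Q182.SK.Psy
import Pool.Agent.Q182.SK.Exf
import Pool.Agent.Q182.SK.Gen
import Pool.Agent.Q272.SK.GRP
import Pool.Agent.Q182.SK.Dat
import Pool.Agent.Q95.SK.PAI
import Pool.Agent.Q272.SK.MAI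
import Pool.Agent.Q213.SK.HTX
import Pool.Agent.Q213.SK.EHT
import Pool.Agent.Q175.SK.Etf
import Pool.Agent.Q175.SK.Epr
import Pool.Agent.Q175.SK.Ba4
import Pool.Agent.Q272.SK.HF4
import Pool.Agent.Q272.SK.BAP
import Pool.Agent.Q272.SK.FNB
import Pool.Agent.Q175.SK.Sea
import Pool.Agent.Q182.SK.Uno
import Pool.Agent.Q182.SK.Mr
import Pool.Agent.Q182.SK.Uex
import Pool.Agent.Q182.SK.Uge
import Pool.Agent.Q47.SK.UGR
import Pool.Agent.Q175.SK.Hfr
import Pool.Agent.Q175.SK.Fnc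

/-!
# Project SK: the final assembly
-/

set_option autoImplicit false

namespace Q32.SK

open Function

open Pool.Agent.Q184.SK Pool.Agent.Q182.SK Q95.SK Q272.SK Q213.SK Q175.SK Q47.SK

theorem finMachine (k : ℕ) (I : Type) (ar : I → ℕ) (𝒞 : Cls I ar)
    (h : EAP k 𝒞) (A₀ : Stg k 𝒞) (hA : HFull A₀) :
    ∃ W : Stg k 𝒞, Nonempty (Ext A₀ W) ∧ Trans W ∧ PtExt W :=
  machine book lim exg ric non ini psy exf gen grp dat tst pai mai k I ar 𝒞 h A₀ hA

theorem finA : ∃ X : Set ℕ, X.Infinite ∧ ∃ c C : ℝ, 1 < c ∧ 0 < C ∧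
    ∀ k ∈ X, C * (k : ℝ) ^ c ≤ (k.factorial : ℝ) / (tau' k : ℝ) :=
  resA book lim exg ric non ini psy exf gen grp dat tst pai mai htx fe fi eht bap hfp cnt fna

theorem finB : (∃ (M : Type) (R : (Fin 4 → M) → Prop) (E : M → M → Prop), IsLim M R E) ∧
    ∀ (M : Type) (R : (Fin 4 → M) → Prop) (E : M → M → Prop), IsLim M R E →
    ∃ (G : Type) (_ : Group G) (_ : MulAction G M),
      (∀ (g : G) (a : Fin 4 → M), R (fun i => g • a i) ↔ R a) ∧
      (∀ (g : G) (x y : M), E (g • x) (g • y) ↔ E x y) ∧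
      ∀ a b : Fin 4 → M, Injective a → Injective b → (R a ↔ R b) →
        (∀ i j, E (a i) (a j) ↔ E (b i) (b j)) → ∃! g : G, ∀ i, g • a i = b i :=
  resB book lim exg ric non ini psy exf gen grp dat tst pai mai htx fe eht etf epr ba4 hf4 fnb

theorem finC : (∃ (M : Type) (d : M → M → ℚ), IsQU M d) ∧
    ∀ k, k = 2 ∨ k = 3 → ∀ (M : Type) (d : M → M → ℚ), IsQU M d →
    ∃ (G : Type) (_ : Group G) (_ : MulAction G M),
      (∀ (g : G) (x y : M), d (g • x) (g • y) = d x y) ∧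
      ∀ a b : Fin k → M, Injective a → Injective b → (∀ i j, d (a i) (a j) = d (b i) (b j)) →
        ∃! g : G, ∀ i, g • a i = b i := by
  refine fnc ?_
  intro k hk
  obtain ⟨A₀⟩ := bar k
  have hH : ∀ H : Subgroup (Equiv.Perm (Fin k)), HC k H := by
    rcases hk with rfl | rfl
    · exact hca.1
    · exact hca.2
  obtain ⟨W, -, h1, h2⟩ := finMachine k ℚ _ RM (seb k ℚ _ RM sea) A₀
    (hfr book lim exg ric seb uin uno mr uex uge ugr ust k ℚ _ (fun _ => by norm_num) RM sea hH A₀)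
  exact ⟨W, h1, h2⟩

end Q32.SK
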