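import Pool.Agent.Q32.SK.Stm

/-!
# Project SK: assembly
-/

set_option autoImplicit false

namespace Q32.SK

open Function

/-- the machine -/
theorem machine (book : S_BOOK) (lim : S_LIM) (exg : S_EXG) (ric : S_RIC) (non : S_NON)
    (ini : S_INI) (psy : S_PSY) (exf : S_EXF) (gen : S_GEN) (grp : S_GRP) (dat : S_DAT)
    (tst : S_TST) (pai : S_PAI) (mai : S_MAI) (k : ℕ) (I : Type) (ar : I → ℕ) (𝒞 : Cls I ar)
    (h : EAP k 𝒞) (A₀ : Stg k 𝒞) (hA : HFull A₀) :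
    ∃ W : Stg k 𝒞, Nonempty (Ext A₀ W) ∧ Trans W ∧ PtExt W :=
  mai book lim exg k I ar 𝒞 h
    (pai book lim exg ric dat ini psy exf non gen grp tst k I ar 𝒞 h) A₀ hA

theorem resA (book : S_BOOK) (lim : S_LIM) (exg : S_EXG) (ric : S_RIC) (non : S_NON)
    (ini : S_INI) (psy : S_PSY) (exf : S_EXF) (gen : S_GEN) (grp : S_GRP) (dat : S_DAT)
    (tst : S_TST) (pai : S_PAI) (mai : S_MAI) (htx : S_HTX) (fe : S_FE) (fi : S_FI)
    (eht : S_EHT) (bap : S_BAP) (hfp : S_HFP) (cnt : S_CNT) (fna : S_FNA) :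
    ∃ X : Set ℕ, X.Infinite ∧ ∃ c C : ℝ, 1 < c ∧ 0 < C ∧
      ∀ k ∈ X, C * (k : ℝ) ^ c ≤ (k.factorial : ℝ) / (tau' k : ℝ) := by
  refine fna cnt ?_
  intro p _
  obtain ⟨A₀, φ₀, ι₀, h1, h2⟩ := bap htx fi p
  obtain ⟨W, -, hW, -⟩ := machine book lim exg ric non ini psy exf gen grp dat tst pai mai p Unit _
    (HT p (Aff p)) (eht htx fe p (Aff p)) A₀ (hfp p (Aff p) A₀ φ₀ ι₀ h1 h2)
  exact ⟨W, hW⟩

theorem resB (book : S_BOOK) (lim : S_LIM) (exg : S_EXG) (ric : S_RIC) (non : S_NON)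
    (ini : S_INI) (psy : S_PSY) (exf : S_EXF) (gen : S_GEN) (grp : S_GRP) (dat : S_DAT)
    (tst : S_TST) (pai : S_PAI) (mai : S_MAI) (htx : S_HTX) (fe : S_FE)
    (eht : S_EHT) (etf : S_ETF) (epr : S_EPR) (ba4 : S_BA4) (hf4 : S_HF4) (fnb : S_FNB) :
    (∃ (M : Type) (R : (Fin 4 → M) → Prop) (E : M → M → Prop), IsLim M R E) ∧
    ∀ (M : Type) (R : (Fin 4 → M) → Prop) (E : M → M → Prop), IsLim M R E →
    ∃ (G : Type) (_ : Group G) (_ : MulAction G M),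
      (∀ (g : G) (a : Fin 4 → M), R (fun i => g • a i) ↔ R a) ∧
      (∀ (g : G) (x y : M), E (g • x) (g • y) ↔ E x y) ∧
      ∀ a b : Fin 4 → M, Injective a → Injective b → (R a ↔ R b) →
        (∀ i j, E (a i) (a j) ↔ E (b i) (b j)) → ∃! g : G, ∀ i, g • a i = b i := by
  refine fnb ?_
  have h : EAP 4 C4 := epr 4 Unit Unit _ _ _ _ (eht htx fe 4 _) (etf 4)
  obtain ⟨A₀, φ₀, ι₀, h1, h2, h3⟩ := ba4 htx
  obtain ⟨W, -, hW, hW'⟩ := machine book lim exg ric non ini psy exf gen grp dat tst pai mai 4 _ _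
    C4 h A₀ (hf4 exg h A₀ φ₀ ι₀ h1 h2 h3)
  exact ⟨W, hW, hW'⟩

end Q32.SK
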