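import Pool.Agent.Q32.SK.Def

/-!
# Project SK: statements

Every `S_XX` below is a lemma job: prove `theorem xx : S_XX` in a file of your own. The paper proof
is in the docstring. Premises `S_YY` are other jobs; use them as they stand.
-/

set_option autoImplicit false

namespace Q32.SK

open Function

/-! ### Part 1: chains -/

/-- BOOK. Bookkeeping. Proof. Enumerate all tasks: for each object choose a surjection from `ℕ` onto
its tasks (if there are any). Build the sequence by recursion on `n`; the state at time `n` is the
current object `A n` together with the list of all earlier objects and the composites to `A n`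
(e.g. a dependent sequence `i ↦ (A i, Hom (A i) (A n))` for `i ≤ n`, or a list of pairs (object,
morphism to the current object)). At time `n = Nat.pair i j` with `i ≤ n` apply `perf` to the
composite from `A i` and its task number `j`; otherwise take the identity. The composite produced in
this way is `cto .. i (n + 1 - i)` by definition of `cto` (its successor case is
`cmp (cto .. n m) (e (n + m))`). -/
def S_BOOK : Prop := ∀ (Ob : Type 1) (Hom : Ob → Ob → Type) (idm : ∀ A, Hom A A)
  (cmp : ∀ {A B C : Ob}, Hom A B → Hom B C → Hom A C) (T : Ob → Type) (_ : ∀ A, Countable (T A))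
  (done : ∀ {A B : Ob}, Hom A B → T A → Prop) (Q : ∀ {A B : Ob}, Hom A B → Prop)
  (_ : ∀ A, Q (idm A))
  (_ : ∀ {A B : Ob} (e : Hom A B) (τ : T A), ∃ (C : Ob) (f : Hom B C), Q f ∧ done (cmp e f) τ)
  (A₀ : Ob),
  ∃ (A : ℕ → Ob) (e : ∀ n, Hom (A n) (A (n + 1))), A 0 = A₀ ∧ (∀ n, Q (e n)) ∧
    ∀ (n : ℕ) (τ : T (A n)), ∃ m, done (cto idm cmp A e n m) τ

/-- LIM. The limit of a chain of stages. Proof. `W.M` is the direct limit of the sets `(A n).M` along
the injections, `W.G` the direct limit of the groups (Mathlib: `DirectLimit`, which has a group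
instance; or a quotient of `Σ n, ..` made by hand; the maps `(e n).φ` are injective: an element of
the kernel fixes infinitely many points, use `shp`). The action, the structure
(`W.r i v` iff `v = E n ∘ w` and `(A n).r i w` for some `n`, `w`) and all conditions of `Good` are
read off at a finite stage since they involve finitely many points and one group element; the
class by `𝒞.loc` and `𝒞.pull`. -/
def S_LIM : Prop := ∀ (k : ℕ) (I : Type) (ar : I → ℕ) (𝒞 : Cls I ar) (A : ℕ → Stg k 𝒞)
  (e : ∀ n, Ext (A n) (A (n + 1))),
  ∃ (W : Stg k 𝒞) (E : ∀ n, Ext (A n) W),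
    (∀ n x, (E (n + 1)).ι ((e n).ι x) = (E n).ι x) ∧
    (∀ n g, (E (n + 1)).φ ((e n).φ g) = (E n).φ g) ∧
    (∀ x : W.M, ∃ n y, (E n).ι y = x) ∧ ∀ g : W.G, ∃ n h, (E n).φ h = g

/-- EXG. New free orbits keep `Good`. Proof. `shp`: if `g` fixes a new point then `g = 1`, otherwise
all points are old. `fre`: let `g ≠ 1` preserve `D`, `|D| = k`, and fix `x`. Then `x` is old. Let `O`
be the set of the old points of `D` (in `M`). If `D` has no new point use `fre` of `M`. Otherwise a
power of `g` fixes a new point of `D`, so `g` has finite order `o ≥ 2`; `⟨g⟩` acts freely on the new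
points of `D`, so their number is `o * q`. Every element `≠ 1` of `⟨g⟩` has fewer than `k` fixed
points in `M` (`shp`), so only finitely many points of `M` have a nontrivial stabiliser in `⟨g⟩`, and
since `M` is infinite there are `q` free orbits of `⟨g⟩` in `M` disjoint from `O`. Let `D'` be the
union of `O` and these orbits: it has `k` points and is preserved by `g`, so `x ∈ D'` by `fre` of
`M`; `x` is not in a free orbit, so `x ∈ O`. -/
def S_EXG : Prop := ∀ (k : ℕ) (I : Type) (ar : I → ℕ) (𝒞 : Cls I ar) (G M J : Type) [Group G]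
  [MulAction G M] [Infinite M] (r : Str I ar M) (r' : Str I ar (Ex G M J)), Good k 𝒞 G M r →
  𝒞.K (Ex G M J) r' → (∀ g : G, r'.pull (fun x => g • x) = r') → r'.pull (Ex.old J) = r →
  Good k 𝒞 G (Ex G M J) r'

/-- RIC. Every stage has a rich extension with the same group. Proof. Use BOOK for `Ob = Stg k 𝒞`,
`Hom = Ext`, `Q e` = surjectivity of `e.φ`. Tasks of `A`: admissible data `(S, C, D)` with
`J = Unit` and a finite set `F ⊆ A.M`; countably many, since `S`, `C`, `F` are finite and only the
restriction of `D` to the finite set `Zs S C Unit` matters (`𝒞.cnt` and `𝒞.pull` along a bijection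
with `Fin n`; take e.g. `T A = ℕ` and choose an enumeration). `done e` of a task, for `e : Ext A B`:
there is `y : B.M` with trivial stabiliser in `B.G` and `g • y ≠ e.ι x` for all `g : B.G`, `x ∈ F`,
such that for all tuples `v` in `Zs S C Unit`: `D i v ↔ B.r i (fun l => q (v l))`, where `q` sends the
old point `x` to `e.ι x` and the new point `g` to `e.φ g • y`. `perf`: transport the data to `B`
(`S.map e.φ`, `e.ι '' C`, ..; `e.φ` is injective by `shp` since `A.M` is infinite), apply EAP in `B`
with `J = Unit` and EXG: the new point `1` is as required. Let `W` be the limit (LIM). All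
`(e n).φ` are surjective, hence so are all `(E n).φ`. Admissible data and a finite set in `W`
come from a stage `A n` (pull back along `E n`, for `n` so large that `C` and `F` are in the range),
there the task is done at a later stage by some `y`, and the image of `y` in `W` is as required
because the group does not grow. -/
def S_RIC : Prop := S_BOOK → S_LIM → S_EXG → ∀ (k : ℕ) (I : Type) (ar : I → ℕ) (𝒞 : Cls I ar),
  EAP k 𝒞 → ∀ A : Stg k 𝒞, ∃ (B : Stg k 𝒞) (e : Ext A B), Surjective e.φ ∧ Rich 𝒞 B.G B.M B.r

/-! ### Part 2: generic permutations -/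

/-- NON. New edges are not used by closed trajectories. Let `y` be a point with trivial stabiliser
whose orbit avoids all points of `p` and `x`, and add the edges `(s x, φ(s) y)`. Proof. (1) If the
step along `l` uses a new edge forwards (`l.2 = true`) it ends in `φ(s) y`, and if then the step
along `l'` is possible, it starts with the point `l'.1 φ(s) y` of the orbit of `y`: this is not
a first coordinate of any edge, so `l'.2 = false`, and it is a second coordinate only of a new edge,
so `l'.1 φ(s) y = φ(s') y`, `l'.1 ∈ S'` and `Bad S S' l l'`. (2) If the step along `l'` uses a new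
edge backwards (`l'.2 = false`), `l'.1 z' = φ(s) y`, and the previous step along `l` ended in `z'`,
which is in the orbit of `y`: so `l.2 = true` (a backward step ends in a first coordinate) and `z'`
is a second coordinate of a new edge, so again `l'.1 ∈ S'` and `Bad S S' l l'`. In a closed
trajectory `z → z` along `w` each step has a next step and a previous step (cyclically; go twice around:
`Tr p' (w ++ w) z z`), and each cyclically consecutive pair of letters occurs in `w ++ w`. So all
steps use edges in `p`. -/
def S_NON : Prop := ∀ (G M : Type) [Group G] [MulAction G M] (S S' : Subgroup G) (φ : S ≃* S')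
  (p : Set (M × M)) (x y : M), (∀ g : G, g • y = y → g = 1) →
  (∀ g : G, ∀ q ∈ p, g • y ≠ q.1 ∧ g • y ≠ q.2) → (∀ g : G, g • y ≠ x) →
  ∀ w : List (G × Bool), Cyc S S' w → ∀ z : M,
    Tr (p ∪ {q | ∃ s : S, q = ((s : G) • x, (φ s : G) • y)}) w z z → Tr p w z z

/-- INI. The initial partial map. Proof. Only `good` needs an argument. Let `w` be cyclically reduced
and let `x` be `k` distinct points with closed trajectories along `w`. At each step the `k`
points are mapped (after applying the group element of the letter) onto the set `b` if the letter is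
`(g, true)` and onto the set `a` if it is `(g, false)` (`k` distinct points in a set with `k`
elements), and then they form the set `a` resp. `b`. After `(g, true)` they form `a`, so the next letter
`(g', true)` would give `g' a = b`, impossible by `ne'`; so the next letter is `(g', false)`.
After `(g, false)` they form `b`, a next letter `(g', false)` would give `g' b = a`, impossible by
`ne`; so it is `(g', true)` with `g' b = b`, so `g' ∈ S` and the pair is `Bad`. Going around the
cycle (consider `w ++ w`) there is a contradiction. -/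
def S_INI : Prop := ∀ (k : ℕ) (I : Type) (ar : I → ℕ) (G M : Type) [Group G] [MulAction G M]
  (r : Str I ar M) (d : Dat k G M r), (∀ g : G, (∀ i, g • d.b i ∈ Set.range d.b) → g ∈ d.S) →
  PM d {q | ∃ i, q = (d.b i, d.a i)}

/-- PSY. Symmetry. Proof. Exchange the roles; a word `w` becomes the word with all the booleans
flipped, `Stp` and `Bad` correspond, hence `Tr` and `Cyc`. -/
def S_PSY : Prop := ∀ (k : ℕ) (I : Type) (ar : I → ℕ) (G M : Type) [Group G] [MulAction G M]
  (r : Str I ar M) (d : Dat k G M r) (p : Set (M × M)), PM d p →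
  PM d.symm {q | (q.2, q.1) ∈ p}

/-- EXF. Forward extension. Proof. If `x` is a first coordinate of `p` take `p' = p`. Otherwise no
`s x` (`s ∈ S`) is, and `S` acts freely at `x`: an element `s ≠ 1` of `S` preserves the set
`range b`, which has `k` elements, so its fixed points are in `range b` (`fre`), which is contained in the
set of first coordinates. Let `C` be the set of second coordinates of `p` (invariant under `S'`), let
`β` send the old point `c ∈ C` to the `x'` with `(x', c) ∈ p` and the new point `g ∈ S'` to
`(φ⁻¹ g) • x`, and let `D i v = r i (β ∘ v)` (`β` arbitrary outside `Zs S' C Unit`). These are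
admissible data for `S'`, `C`: `β` is injective on `Zs`, so the class by `𝒞.pull`; `β (s' z) =
φ⁻¹(s') β z` and `r` is invariant; `Dr` is `iso` of `p`. Rich gives `y` with trivial stabiliser,
avoiding the finite set of all points of `p` and `x`. Put
`p' = p ∪ {(s x, φ(s) y) | s ∈ S}`; `good` by NON, `iso` by the choice of `y`, the rest is clear. -/
def S_EXF : Prop := S_NON → ∀ (k : ℕ) (I : Type) (ar : I → ℕ) (𝒞 : Cls I ar) (G M : Type)
  [Group G] [MulAction G M] (r : Str I ar M), Good k 𝒞 G M r → Rich 𝒞 G M r →
  ∀ (d : Dat k G M r) (p : Set (M × M)), PM d p → ∀ x : M,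
    ∃ p' : Set (M × M), p ⊆ p' ∧ PM d p' ∧ ∃ y, (x, y) ∈ p'

/-- GEN. The generic permutation. Proof. Start with INI, enumerate `M` and alternate EXF and its
mirror image (EXF for `d.symm`, PSY twice) to get an increasing sequence of partial maps whose union is
the graph of a permutation `t`. A closed trajectory along `t` uses finitely many edges, which lie
in one of the partial maps (for `k` trajectories together as well), so `good` passes to `t`. -/
def S_GEN : Prop := S_INI → S_PSY → S_EXF → S_NON → ∀ (k : ℕ) (I : Type) (ar : I → ℕ)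
  (𝒞 : Cls I ar) (G M : Type)
  [Group G] [MulAction G M] [Countable M] (r : Str I ar M), Good k 𝒞 G M r → Rich 𝒞 G M r →
  ∀ d : Dat k G M r, (∀ g : G, (∀ i, g • d.b i ∈ Set.range d.b) → g ∈ d.S) →
    ∃ t : Equiv.Perm M, (∀ i, t (d.b i) = d.a i) ∧
      (∀ (s : d.S) (x : M), t ((s : G) • x) = (d.φ s : G) • t x) ∧ r.pull (fun x => t x) = r ∧
      ∀ w : List (G × Bool), Cyc d.S d.S' w → ∀ x : Fin k → M, Injective x →
        ¬ ∀ j, Tr {q | t q.1 = q.2} w (x j) (x j)

/-- GRP. The group generated by `G` and `t`. Proof. For a word `w = (g₁, ε₁) … (gₙ, εₙ)` let `val w`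
be the permutation `x ↦ t^εₙ gₙ ⋯ t^ε₁ g₁ x` (`ε = true` means `t`, `false` means `t⁻¹`); then
`Tr (graph of t) w x y ↔ val w x = y`. CLAIM: each element `h` of the group is conjugate in it to
(the permutation of) an element of `G` or to `val w` for a cyclically reduced `w`. Every element is
`g • val w` for some `g`, `w`; induct on the length `n` of `w`. If `n = 0` it is in `G`. Else
conjugate so that `g` is absorbed in the first letter: `h ~ val w'` with `|w'| = n`. If `w'` is not
cyclically reduced then some cyclically consecutive pair `l`, `l'` is `Bad` (`n ≥ 2` as a `Bad` pair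
has different signs); rotate `w'` (a conjugation) such that the pair is at the beginning; by
`t s = φ(s) t` we have `t⁻¹ s' t g = φ⁻¹(s') g` and `t s t⁻¹ g = φ(s) g`, so the two letters can be
replaced by a group element: length `n - 2`. `shp`: if `h` fixes `k` distinct points so does its
conjugate; it is not `val w` with `w` cyclically reduced (hypothesis), so it is in `G` and
fixes `k` points, so it is `1`. `fre`: let `h ≠ 1` preserve `D`, `|D| = k`, `h x = x`. If a conjugate
`u h u⁻¹` is `val w`, `w` cyclically reduced, then for `m = k!` (or the order of the permutation of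
`D`) `val (w ++ ... ++ w)` (`m` times, again cyclically reduced) fixes the `k` points of `u D`, a
contradiction. So `u h u⁻¹` is in `G`, and by `fre` of `G` its fixed point `u x` is in `u D`.
(`k = 0`: the hypothesis on words applied to `w = [(1, true)]` and the empty tuple is
contradictory.) Countability: the group is generated by a countable set. -/
def S_GRP : Prop := ∀ (k : ℕ) (I : Type) (ar : I → ℕ) (𝒞 : Cls I ar) (G M : Type)
  [Group G] [MulAction G M] [Countable G] (r : Str I ar M), Good k 𝒞 G M r →
  ∀ (S S' : Subgroup G) (φ : S ≃* S') (t : Equiv.Perm M),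
    (∀ (s : S) (x : M), t ((s : G) • x) = (φ s : G) • t x) → r.pull (fun x => t x) = r →
    (∀ w : List (G × Bool), Cyc S S' w → ∀ x : Fin k → M, Injective x →
        ¬ ∀ j, Tr {q | t q.1 = q.2} w (x j) (x j)) →
    Countable (Subgroup.closure (Set.range (MulAction.toPermHom G M) ∪ {t})) ∧
    Good k 𝒞 (Subgroup.closure (Set.range (MulAction.toPermHom G M) ∪ {t})) M r

/-- DAT. The datum. Proof. `S` = the set of the `g` with `g • b i ∈ range b` for all `i` (a subgroup:
such a `g` permutes the finite set `range b`). For `s ∈ S` there is a permutation `π` with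
`s • b i = b (π i)`; as `r` is invariant, `r.pull (b ∘ π) = r.pull b`, so (same type)
`r.pull (a ∘ π) = r.pull a`, and since `a` is full there is `s'` with `s' • a i = a (π i)`, unique
by `shp`. Let `S'` be the set of these `s'` and `φ s = s'`: an injective (`shp`) homomorphism
(`s • b (π' i) = b (π (π' i))` etc.). `S` is finite since it embeds in the permutations of
`Fin k`. `ne'`: if `g • a i ∈ range b` for all `i` then `g` maps `range a` onto `range b` (finite
sets with `k` elements) and `g⁻¹` contradicts the hypothesis. -/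
def S_DAT : Prop := ∀ (k : ℕ) (I : Type) (ar : I → ℕ) (𝒞 : Cls I ar) (G M : Type)
  [Group G] [MulAction G M] (r : Str I ar M), Good k 𝒞 G M r →
  ∀ (b a : Fin k → M), Injective b → r.pull b = r.pull a → Full G M r a →
    (∀ g : G, ¬ ∀ i, g • b i ∈ Set.range a) →
    ∃ d : Dat k G M r, d.b = b ∧ d.a = a ∧ ∀ g : G, (∀ i, g • b i ∈ Set.range b) → g ∈ d.S

/-- TST. The step. Proof. DAT, GEN, GRP; the new stage has the same `M` and the group
`closure (range (toPermHom) ∪ {t})`, the extension is `ι = id`, `φ = toPermHom`, and `g = t`. -/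
def S_TST : Prop := S_DAT → S_INI → S_PSY → S_EXF → S_NON → S_GEN → S_GRP →
  ∀ (k : ℕ) (I : Type) (ar : I → ℕ) (𝒞 : Cls I ar) (A : Stg k 𝒞), Rich 𝒞 A.G A.M A.r →
  ∀ (b a : Fin k → A.M), Injective b → A.r.pull b = A.r.pull a → Full A.G A.M A.r a →
    (∀ g : A.G, ¬ ∀ i, g • b i ∈ Set.range a) →
    ∃ (B : Stg k 𝒞) (e : Ext A B) (g : B.G), ∀ i, g • e.ι (b i) = e.ι (a i)

/-! ### Part 3: the limit -/

/-- PAI. A tuple can be moved to a full tuple of the same type. Proof. If some `g : A.G` maps all
`b i` into `range a`, then `g • b i = a (π i)` for a permutation `π`, and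
`A.r.pull (a ∘ π) = A.r.pull (g • b) = A.r.pull b = A.r.pull a`, so by
`Full` there is `g'` with `g' • a i = a (π⁻¹ i)` (the type of `a ∘ π⁻¹` is that of `a` too), and
`g' g` maps `b i` to `a i`. Take `B = A`. Otherwise take a rich extension (RIC) with
surjective `φ`: there also no group element maps `b` into `range a`, and the image of `a` is full;
apply TST and compose. -/
def S_PAI : Prop := S_BOOK → S_LIM → S_EXG → S_RIC → S_DAT → S_INI → S_PSY → S_EXF → S_NON →
  S_GEN → S_GRP → S_TST →
  ∀ (k : ℕ) (I : Type) (ar : I → ℕ) (𝒞 : Cls I ar), EAP k 𝒞 → ∀ (A : Stg k 𝒞)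
    (b a : Fin k → A.M), Injective b → A.r.pull b = A.r.pull a → Full A.G A.M A.r a →
    ∃ (B : Stg k 𝒞) (e : Ext A B) (g : B.G), ∀ i, g • e.ι (b i) = e.ι (a i)

/-- MAI. The machine. Proof. BOOK with `Ob = Stg k 𝒞`, `Q = True`. Tasks of a stage `A` over `A₀` (no
tasks if there is no `Ext A₀ A`): (a) pairs of injective tuples `b`, `b' : Fin k → A.M` with the same
type; done: some `g` maps `e.ι (b i)` to `e.ι (b' i)` for all `i`. (b) finite `C ⊆ A.M` and `D` in
the class on `Option C` which agrees with `A.r` on `C`; done: some `y`, not in `e.ι '' C`, realises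
`D` over `e.ι '' C`. Countably many tasks (`𝒞.cnt`). `perf` for (a): HFull gives a full tuple `a`
of the same type in an extension; apply the premise PAIR to `b` and `a`, then to `b'` and
`a` (fullness and types pass to extensions); then `g'⁻¹ g` maps `b` to `b'`. `perf` for (b): EAP with
`S = ⊥`, `J = Unit`, and EXG. The limit `W` (LIM) is as required: tuples and finite sets in `W`
come from some stage, and a task done at a stage is done in `W`. In the last statement
`PAIR` is written out. -/
def S_MAI : Prop := S_BOOK → S_LIM → S_EXG → ∀ (k : ℕ) (I : Type) (ar : I → ℕ) (𝒞 : Cls I ar),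
  EAP k 𝒞 → (∀ (A : Stg k 𝒞) (b a : Fin k → A.M), Injective b → A.r.pull b = A.r.pull a →
    Full A.G A.M A.r a →
    ∃ (B : Stg k 𝒞) (e : Ext A B) (g : B.G), ∀ i, g • e.ι (b i) = e.ι (a i)) →
  ∀ A₀ : Stg k 𝒞, HFull A₀ → ∃ W : Stg k 𝒞, Nonempty (Ext A₀ W) ∧ Trans W ∧ PtExt W

/-! ### Part 4: classes with equivariant extensions -/

/-- HTX. Choosing hypertournaments. Proof. Put `r () e ↔ r0 e` for `e ∈ Y`. Outside `Y`, on the
injective tuples, consider the equivalence relation `e ~ e'` iff `e' = g • e ∘ π` for some `g`, `π`;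
choose in each class an `e₀` with: `g • e₀ = e₀ ∘ π` implies `π ∈ Θ` (exists by the
last hypothesis), and let `r () e` hold iff `e = g • e₀ ∘ θ` for some `g`, some `θ ∈ Θ`, where `e₀` is
the chosen element of the class of `e`. Check: if `r () e`, `e = g • e₀ ∘ θ`, and
`r () (e ∘ π)`, `e ∘ π = g' • e₀ ∘ θ'`, then `(g'⁻¹ g) • e₀ = e₀ ∘ (θ' π⁻¹ θ⁻¹)` up to the order of
composition, so `π ∈ Θ`. -/
def S_HTX : Prop := ∀ (k : ℕ) (Θ : Subgroup (Equiv.Perm (Fin k))) (G X : Type) [Group G]
  [MulAction G X] (Y : Set (Fin k → X)) (r0 : (Fin k → X) → Prop),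
  (∀ e ∈ Y, ∀ g : G, (fun i => g • e i) ∈ Y) →
  (∀ e ∈ Y, ∀ π : Equiv.Perm (Fin k), (fun i => e (π i)) ∈ Y) →
  (∀ e ∈ Y, r0 e → Injective e) →
  (∀ e ∈ Y, ∀ g : G, (r0 (fun i => g • e i) ↔ r0 e)) →
  (∀ e ∈ Y, Injective e → ∃ π : Equiv.Perm (Fin k), r0 (fun i => e (π i))) →
  (∀ e ∈ Y, ∀ π : Equiv.Perm (Fin k), r0 e → (r0 (fun i => e (π i)) ↔ π ∈ Θ)) →
  (∀ e, e ∉ Y → Injective e → ∃ π₀ : Equiv.Perm (Fin k), ∀ (g : G) (π : Equiv.Perm (Fin k)),
    (∀ i, g • e (π₀ i) = e (π₀ (π i))) → π ∈ Θ) →
  ∃ r : Str Unit (fun _ => k) X, (HT k Θ).K X r ∧ (∀ g : G, r.pull (fun x => g • x) = r) ∧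
    ∀ e ∈ Y, (r () e ↔ r0 e)

/-- FE. Equivariant embeddings of free finite sets. Proof. Choose orbit representatives
`x₁, …, xₘ` of `X` and points `y₁, …, yₘ` of `M` in distinct orbits, with trivial stabilisers and
with orbits disjoint from the finite set `O` (possible: only finitely many orbits are bad and `M` is
infinite while orbits are finite); `ψ (h xⱼ) = h yⱼ`. -/
def S_FE : Prop := ∀ (H M X : Type) [Group H] [Finite H] [MulAction H M] [MulAction H X]
  [Finite X] [Infinite M], (∀ (h : H) (x : X), h • x = x → h = 1) →
  {m : M | ∃ h : H, h ≠ 1 ∧ h • m = m}.Finite → ∀ O : Set M, O.Finite →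
  ∃ ψ : X → M, Injective ψ ∧ (∀ (h : H) (x : X), ψ (h • x) = h • ψ x) ∧ (∀ x, ψ x ∉ O) ∧
    ∀ (x : X) (h : H), h • ψ x = ψ x → h = 1

/-- FI. Free finite sets of the same size are isomorphic. Proof. The numbers of orbits agree. -/
def S_FI : Prop := ∀ (H X Y : Type) [Group H] [Finite H] [MulAction H X] [MulAction H Y]
  [Finite X] [Finite Y], (∀ (h : H) (x : X), h • x = x → h = 1) →
  (∀ (h : H) (y : Y), h • y = y → h = 1) → Nat.card X = Nat.card Y →
  ∃ ψ : X ≃ Y, ∀ (h : H) (x : X), ψ (h • x) = h • ψ x

/-- EHT. Hypertournaments have equivariant extensions. Proof. Let `X = Ex G M J`. Let `Y` be the set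
of tuples `e` with all points old, or with `g • e` in `Zs S C J` for some `g`. Put `r0 e` = `r () e'` if
`e = old ∘ e'`, and `r0 e` = `D () (g • e)` if `g • e` is in `Zs S C J` (well defined: if `e` has a new
point then `g` is unique up to left multiplication with `S`, and `D` is invariant under `S`; if all
points are old `D () (g • e) ↔ r () (g • e') ↔ r () e'` by `Dr` and invariance of `r`). The hypotheses
of HTX hold; the last one: let `e ∉ Y` be injective, `H` = the stabiliser in `G` of the set
`range e`. As `e` has a new point, which has trivial stabiliser, `H` is finite (it embeds in the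
permutations of `range e`). Let `O` = the set of the old points of `range e` and `N` = the set of
its new points, a finite free `H`-set. By `shp` every `1 ≠ h ∈ H` has fewer than `k` fixed points in
`M`; so FE gives an equivariant injection of `N` into `M ∖ O`. Together with the identity
of `O` we get an injective `ψ : range e → M` with `ψ (h z) = h ψ z`. Let `e' = ψ ∘ e : Fin k → M`,
and let `π₀` be such that `r () (e' ∘ π₀)`. If `g • (e ∘ π₀) = e ∘ π₀ ∘ π` then `g ∈ H` and
`g • (e' ∘ π₀) = e' ∘ π₀ ∘ π`; by invariance `r ()` holds for it, so `π ∈ Θ`. -/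
def S_EHT : Prop := S_HTX → S_FE → ∀ (k : ℕ) (Θ : Subgroup (Equiv.Perm (Fin k))), EAP k (HT k Θ)

/-- ETF. Triangle-free graphs. Proof. The edges of `r'` are: the edges of `r` on old points, and the
pairs `(x, y)` such that for some `g` both `g x`, `g y` are in `Zs S C J` and `D () ![g x, g y]`. If
`x` is new the `g` with `g x ∈ Zs` form a coset `S g`, and `Zs`, `D` are invariant under `S`; if both
are old the second clause is implied by the first one (`Dr`). So a triangle with a new point is
mapped by some `g` to a triangle of `D` in `Zs` (its third edge too: if its two end points are old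
use `Dr`). -/
def S_ETF : Prop := ∀ k : ℕ, EAP k TF

/-- EPR. Superpositions. Proof. `Good` and `Adm` for the product imply those for the factors (with
`D.fst`, `D.snd`); take `Str.mk2` of the two structures obtained. -/
def S_EPR : Prop := ∀ (k : ℕ) (I I' : Type) (ar : I → ℕ) (ar' : I' → ℕ) (𝒞 : Cls I ar)
  (𝒞' : Cls I' ar'), EAP k 𝒞 → EAP k 𝒞' → EAP k (𝒞.prod 𝒞')

/-! ### Part 5: base stages -/

/-- BA4. The base for 4-tournaments with triangle-free graphs. Proof. `G` = the alternating group of
`Fin 4`, `M = Ex G (Fin 4) ℕ`, no edges. An involution of `G` has no fixed points in `M`, an element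
of order 3 exactly one, an old one. `shp`: clear. `fre`: `g ≠ 1` with a fixed point `x` has order 3,
its other orbits in `M` have 3 elements, and `4 ≡ 1 (mod 3)`, so `x ∈ D`. HTX with `Y = ∅`: for every
injective `e`, `g • e = e ∘ π` implies that `π` is even: if `g² = 1`, `g ≠ 1`, then `π² = 1` and `π`
has no fixed points, if `g³ = 1` then `π³ = 1`, and `g = 1` gives `π = 1`. -/
def S_BA4 : Prop := S_HTX → ∃ (A₀ : Stg 4 C4) (φ₀ : alternatingGroup (Fin 4) →* A₀.G)
  (ι₀ : Fin 4 → A₀.M), Injective ι₀ ∧ (∀ g i, φ₀ g • ι₀ i = ι₀ ((g : Equiv.Perm (Fin 4)) i)) ∧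
  ∀ i j, ¬ A₀.r.snd () ![ι₀ i, ι₀ j]

/-- HF4. Full tuples for 4-tournaments with triangle-free graphs. Proof. Let `B` be a stage over
`A₀`, `φ : alternatingGroup (Fin 4) →* B.G`, `ι : Fin 4 → B.M` the composites, and `r₀` in the class
on `Fin 4`. Let `P` be the group of the `π` which preserve `r₀`; they are even (as
`r₀.fst ()` holds for some bijective tuple), so `P ≤ alternatingGroup (Fin 4)`. Let `O ⊆ Fin 4` be the
set of points fixed by some `1 ≠ π ∈ P` (such a `π` is a 3-cycle). (1) If `O` has at least two
elements then `r₀.snd` has no edges (two 3-cycles with different fixed points generate the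
alternating group, which is 2-transitive, and a triangle-free graph on 4 points is not
complete; finitely many cases). Let `π₁`, `π₀` be such that `B.r.fst ()` holds for
`ι ∘ π₁` and `r₀.fst ()` for `π₀`; then `a = ι ∘ π₁ ∘ π₀⁻¹` in `B` itself has type `r₀` and
is full: if `π` is even, it is conjugated by `π₁ π₀⁻¹` into an even permutation `g`, and `φ g` maps `a i`
to `a (π i)`. (2) If `O` has at most one element let `C = ι '' O`, `S = φ '' P`, `J` = a set of
representatives of the (free) orbits of `P` on `Fin 4 ∖ O`; then `Zs S C J` is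
`P`-equivariantly in bijection with `Fin 4` (`ι x ↔ x`, `new (φ π) j ↔ π j`); let `D` be the structure
obtained from `r₀`. On `C` (at most one point) no relation holds. EAP and EXG give an extension in
which the tuple `a` (the inverse bijection) has type `r₀`, and it is full: `φ π` maps `a i` to
`a (π i)`. (`φ` is injective since `ι` is.) -/
def S_HF4 : Prop := S_EXG → EAP 4 C4 → ∀ (A₀ : Stg 4 C4) (φ₀ : alternatingGroup (Fin 4) →* A₀.G)
  (ι₀ : Fin 4 → A₀.M), Injective ι₀ → (∀ g i, φ₀ g • ι₀ i = ι₀ ((g : Equiv.Perm (Fin 4)) i)) →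
  (∀ i j, ¬ A₀.r.snd () ![ι₀ i, ι₀ j]) → HFull A₀

/-- BAP. The base for the affine groups. Proof. `G = Aff p`, `M = Ex G (Fin p) ℕ` (`Aff p` acts on
`Fin p` by `π • i = π i`). An element `≠ 1` has at most one fixed point in `Fin p` (a
translation has none, `x ↦ u x + b` with `u ≠ 1` exactly one) and none among the new points.
`shp`: `p ≥ 2`. `fre`: `g ≠ 1` with fixed point `x` has order `m` dividing `p - 1` (conjugate to
`x ↦ u x`), all its orbits except `x` have `m ≥ 2` elements (each power `≠ 1` fixes only `x`), and
`p ≡ 1 (mod m)`, so a `g`-invariant `D` with `p` elements contains `x`. HTX with `Y = ∅`; let `e` be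
injective, `H` the stabiliser of `range e`. (i) `range e` = all old points: take `π₀ = e⁻¹`, then
`g • e ∘ π₀ = e ∘ π₀ ∘ π` means `g = π`. (ii) `range e` has a new point and `p` divides `|H|`: `H`
contains the translations `T`, which have no fixed points in `M`, so `range e` is one orbit of `T`,
all its points are new, so it is free for `H` and `H = T`; take `π₀` with `e (π₀ (l)) = T^l e(0)` (`T` =
the translation by 1): then `g = T^j` and `π` is the translation by `j`. (iii) `p` does not divide
`|H|`: `H` meets the group of translations trivially, so it is cyclic of order `m ∣ p - 1`; if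
`m = 1` any `π₀` works; if `m ≥ 2`, `H` fixes exactly one old point `x₀`, and its other orbits in `M`
are free; so `x₀ ∈ range e`, and by FI the `H`-sets `range e ∖ x₀` and `Fin p ∖ x₀` are isomorphic;
so there is an equivariant bijection `ψ : Fin p → range e`; take `π₀` with `e ∘ π₀ = ψ`: then
`g • e ∘ π₀ = e ∘ π₀ ∘ π` means `π = g ∈ Aff p`. -/
def S_BAP : Prop := S_HTX → S_FI → ∀ (p : ℕ) [Fact p.Prime],
  ∃ (A₀ : Stg p (HT p (Aff p))) (φ₀ : Aff p →* A₀.G)
  (ι₀ : Fin p → A₀.M), Injective ι₀ ∧ ∀ g i, φ₀ g • ι₀ i = ι₀ ((g : Equiv.Perm (Fin p)) i)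

/-- HFP. Full tuples for hypertournaments. Proof. Let `B` be over `A₀` (`e : Ext A₀ B`), take `C = B`.
Let `ι = e.ι ∘ ι₀`, `φ = e.φ ∘ φ₀`, `π₁` such that `B.r ()` holds for `ι ∘ π₁`, and `π₀` such that
`r₀ ()` holds for the tuple `i ↦ π₀ i` (both from the class). As `Θ` acts on `ι` by automorphisms,
`π₁⁻¹ Θ π₁ ≤ Θ`, so equality holds (`Θ` finite). Then `a = ι ∘ π₁ ∘ π₀⁻¹` has type `r₀`: a bijective
tuple `v : Fin k → Fin k` satisfies `r₀ () v` iff `π₀⁻¹ ∘ v ∈ Θ` iff `B.r () (a ∘ v)`, and non-injective
tuples satisfy neither. It is full: if `π` preserves the type then `π₀⁻¹ π π₀ ∈ Θ`, so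
`g = π₁ π₀⁻¹ π π₀ π₁⁻¹ ∈ Θ` and `φ g` maps `a i` to `a (π i)`. -/
def S_HFP : Prop := ∀ (k : ℕ) (Θ : Subgroup (Equiv.Perm (Fin k))) (A₀ : Stg k (HT k Θ))
  (φ₀ : Θ →* A₀.G) (ι₀ : Fin k → A₀.M), Injective ι₀ →
  (∀ g i, φ₀ g • ι₀ i = ι₀ ((g : Equiv.Perm (Fin k)) i)) → HFull A₀

/-! ### Part 6: the results -/

/-- CNT. Orbits. Proof. For an injective tuple `a` let `c(a)` be the set of the `π` such that
`W.r () (a ∘ π)`: a coset `π₀ Θ`, `Θ = Aff p`, invariant under `G`. If `c(a) = c(b)` then
`a ∘ π₀` and `b ∘ π₀` have the same type (a tuple `v` of elements of `Fin p` satisfies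
the pull back iff it is a permutation in `Θ`), so some `g` maps `a` to `b`. As `c(a ∘ σ) = σ⁻¹ c(a)`
all left cosets occur. So the number of orbits is the index of `Θ`, and `|Θ| = p (p - 1)`.
Transitivity on sets: order both sets by tuples satisfying `W.r ()`; they have the same type. -/
def S_CNT : Prop := ∀ (p : ℕ) [Fact p.Prime] (W : Stg p (HT p (Aff p))), Trans W →
  (∀ D D' : Finset W.M, D.card = p → D'.card = p → ∃ g : W.G, ∀ x, x ∈ D ↔ g • x ∈ D') ∧
  Nat.card (MulAction.orbitRel.Quotient W.G (Fin p ↪ W.M)) * (p * (p - 1)) = p.factorial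

/-- the `k`-sharp actions which are transitive on `k`-sets -/
def KAct (k : ℕ) (G U : Type) [Group G] [MulAction G U] : Prop :=
  (∀ (g : G) (a : Fin k → U), Injective a → (∀ i, g • a i = a i) → g = 1) ∧
  ∀ A B : Finset U, A.card = k → B.card = k → ∃ g : G, ∀ x, x ∈ A ↔ g • x ∈ B

/-- the least number of orbits on `k`-tuples of distinct points -/
noncomputable def tau' (k : ℕ) : ℕ :=
  sInf {n | ∃ (G U : Type) (_ : Group G) (_ : MulAction G U) (_ : Countable U) (_ : Infinite U),
    KAct k G U ∧ Nat.card (MulAction.orbitRel.Quotient G (Fin k ↪ U)) = n}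

/-- FNA. The first result. Proof. `X` = the set of primes, `c = 2`, `C = 1 / 2`. For a prime `p` the
action of `W.G` on `W.M` shows `tau' p ≤ p! / (p (p - 1))`, as `p (p - 1) ≥ p² / 2`. And `tau' p > 0`:
the set is nonempty, and for every action in it the number of orbits is finite and positive (each
tuple of distinct points is mapped to one of the `k!` orderings of a fixed `k`-set). -/
def S_FNA : Prop := S_CNT → (∀ (p : ℕ) [Fact p.Prime], ∃ W : Stg p (HT p (Aff p)), Trans W) →
  ∃ X : Set ℕ, X.Infinite ∧ ∃ c C : ℝ, 1 < c ∧ 0 < C ∧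
    ∀ k ∈ X, C * (k : ℝ) ^ c ≤ (k.factorial : ℝ) / (tau' k : ℝ)

/-- FNB. The second result. Proof. Let `W` be as in the premise and put `R a = W.r.fst () a`,
`E x y = W.r.snd () ![x, y]`; the class says that they are a 4-tournament and a triangle-free
graph (`R (a ∘ π) ↔ (R a ↔ π even)` follows from the clauses of `HT`). `PtExt` implies that every
finite structure of the class embeds in `W.M` and that partial isomorphisms between finite sets extend by
one point, in both directions; as `W.M` is countable they extend to automorphisms: `IsLim`. Now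
let `(M, R, E)` be any limit. It also has the extension property (embed the one point extension of
a finite `C` by `univ` and move the copy of `C` back by `homog`), so by back and forth it is
isomorphic to `W.M`. Transport the action of `W.G`; it is by automorphisms (`inv`), transitive on tuples
of the same type (`Trans`), and `g` is unique by `shp`. -/
def S_FNB : Prop := (∃ W : Stg 4 C4, Trans W ∧ PtExt W) →
  (∃ (M : Type) (R : (Fin 4 → M) → Prop) (E : M → M → Prop), IsLim M R E) ∧
  ∀ (M : Type) (R : (Fin 4 → M) → Prop) (E : M → M → Prop), IsLim M R E →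
    ∃ (G : Type) (_ : Group G) (_ : MulAction G M),
      (∀ (g : G) (a : Fin 4 → M), R (fun i => g • a i) ↔ R a) ∧
      (∀ (g : G) (x y : M), E (g • x) (g • y) ↔ E x y) ∧
      ∀ a b : Fin 4 → M, Injective a → Injective b → (R a ↔ R b) →
        (∀ i j, E (a i) (a j) ↔ E (b i) (b j)) → ∃! g : G, ∀ i, g • a i = b i

end Q32.SK
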